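import Pool.Agent.H97.NF.Group

set_option autoImplicit false

/-!
# The core: representations of products of general linear groups and anticommuting involutions
-/

namespace Pool.Agent.H97.NF

open Matrix Pool.Agent.X274.PR

/-! ### blocks -/

section blocks

variable {r m : ℕ} {F' : Matrix (Fin r) (Fin r) ℚ} (b : Adapt F' m) {A : Type} [CommRing A] [Algebra ℚ A]

/-- the determinant of `Y : T⁺ → T⁻` in rational bases -/
noncomputable def swp (Y : Matrix (Fin r) (Fin r) A) : A := (bc A (b.C false) * Y * bc A (b.B true)).det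

/-- the determinant of `X : T^± → T^±` -/
noncomputable def dia (s : Bool) (X : Matrix (Fin r) (Fin r) A) : A := (bc A (b.C s) * X * bc A (b.B s)).det

theorem swp_conj {X X' Y : Matrix (Fin r) (Fin r) A}
    (hX' : X' * bc A F' = bc A F' * X') (hY : Y * bc A F' = -(bc A F' * Y)) :
    swp b (X * Y * X') = dia b false X * swp b Y * dia b true X' := by
  have e1 := b.XB hX' true
  have e2 : bc A (b.B false) * (bc A (b.C false) * Y * bc A (b.B true)) = Y * bc A (b.B true) := b.JB hY true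
  unfold swp dia
  rw [← det_mul, ← det_mul]
  congr 1
  have e3 : bc A (b.C false) * X * bc A (b.B false) * (bc A (b.C false) * Y * bc A (b.B true)) =
      bc A (b.C false) * X * (Y * bc A (b.B true)) := by
    rw [Matrix.mul_assoc (bc A (b.C false) * X), e2]
  rw [e3, Matrix.mul_assoc (bc A (b.C false) * X), Matrix.mul_assoc Y, e1]
  simp only [Matrix.mul_assoc]

theorem swp_unit {Y : Matrix (Fin r) (Fin r) A} (hYY : Y * Y = 1) (hY : Y * bc A F' = -(bc A F' * Y)) :
    (bc A (b.C true) * Y * bc A (b.B false)).det * swp b Y = 1 := by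
  unfold swp
  rw [← det_mul, Matrix.mul_assoc (bc A (b.C true) * Y),
    show bc A (b.B false) * (bc A (b.C false) * Y * bc A (b.B true)) = Y * bc A (b.B true) from b.JB hY true,
    ← Matrix.mul_assoc, Matrix.mul_assoc (bc A (b.C true)), hYY, Matrix.mul_one, b.bcCB, det_one]

theorem dia_comm {X Y : Matrix (Fin r) (Fin r) A} (hX : X * bc A F' = bc A F' * X) (hYY : Y * Y = 1)
    (hY : Y * bc A F' = -(bc A F' * Y)) (h : X * Y = Y * X) : dia b false X = dia b true X := by
  have h1 := swp_unit b hYY hY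
  have e2 : (bc A (b.C false) * X * bc A (b.B false)) * (bc A (b.C false) * Y * bc A (b.B true)) =
      (bc A (b.C false) * Y * bc A (b.B true)) * (bc A (b.C true) * X * bc A (b.B true)) := by
    rw [Matrix.mul_assoc (bc A (b.C false) * X), Matrix.mul_assoc (bc A (b.C false) * Y)]
    rw [show bc A (b.B false) * (bc A (b.C false) * Y * bc A (b.B true)) = Y * bc A (b.B true) from b.JB hY true]
    rw [b.XB hX true, ← Matrix.mul_assoc, ← Matrix.mul_assoc, Matrix.mul_assoc (bc A (b.C false)),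
      Matrix.mul_assoc (bc A (b.C false)) Y, h]
  have e3 := congrArg Matrix.det e2
  rw [det_mul, det_mul] at e3
  change dia b false X * swp b Y = swp b Y * dia b true X at e3
  calc dia b false X = dia b false X * swp b Y * (bc A (b.C true) * Y * bc A (b.B false)).det := by
        rw [mul_assoc, mul_comm (swp b Y), h1, mul_one]
    _ = _ := by
        rw [e3, mul_comm (swp b Y), mul_assoc, mul_comm (swp b Y), h1, mul_one]

theorem dia_mul (s : Bool) {X X' : Matrix (Fin r) (Fin r) A} (hX' : X' * bc A F' = bc A F' * X') :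
    dia b s (X * X') = dia b s X * dia b s X' := by
  unfold dia
  rw [← det_mul]
  congr 1
  rw [Matrix.mul_assoc (bc A (b.C s) * X), b.XB hX']
  simp only [Matrix.mul_assoc]

theorem dia_one (s : Bool) : dia b s (1 : Matrix (Fin r) (Fin r) A) = 1 := by
  unfold dia
  rw [Matrix.mul_one, b.bcCB, det_one]

/-- two commuting involutions that anticommute with `F'` have the same determinant up to sign -/
theorem swp_sign {R J : Matrix (Fin r) (Fin r) ℂ} (hRR : R * R = 1) (hR : R * bc ℂ F' = -(bc ℂ F' * R))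
    (hJJ : J * J = 1) (hJ : J * bc ℂ F' = -(bc ℂ F' * J)) (h : R * J = J * R) :
    swp b J = swp b R ∨ swp b J = -swp b R := by
  have hKF : (R * J) * bc ℂ F' = bc ℂ F' * (R * J) := by
    rw [Matrix.mul_assoc, hJ, Matrix.mul_neg, ← Matrix.mul_assoc, hR, Matrix.neg_mul, neg_neg, Matrix.mul_assoc]
  have h1 : (R * J) * (R * J) = 1 := by
    rw [Matrix.mul_assoc, ← Matrix.mul_assoc J, ← h, Matrix.mul_assoc R, hJJ, Matrix.mul_one, hRR]
  have h2 := dia_mul b true (X := R * J) hKF
  rw [h1, dia_one] at h2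
  have h3 : swp b J = swp b R * dia b true (R * J) := by
    have e1 := swp_conj b (X := 1) (X' := R * J) (Y := R) hKF hR
    rw [dia_one, Matrix.one_mul, ← Matrix.mul_assoc, hRR, Matrix.one_mul, one_mul] at e1
    exact e1
  rcases mul_self_eq_one_iff.1 h2.symm with h4 | h4
  · left
    rw [h3, h4, mul_one]
  · right
    rw [h3, h4, mul_neg_one]

end blocks

/-! ### involutions over `ℂ` are conjugate to rational ones -/

theorem exists_rational_conj {n : ℕ} (j : GL (Fin n) ℂ) (hj : j * j = 1) :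
    ∃ (D : GL (Fin n) ℂ) (w : GL (Fin n) ℚ), j = D * bcG ℂ w * D⁻¹ := by
  have hjj : (j : Matrix (Fin n) (Fin n) ℂ) * (j : Matrix (Fin n) (Fin n) ℂ) = 1 := by
    rw [← Units.val_mul, hj, Units.val_one]
  -- the eigenspaces
  set f := (j : Matrix (Fin n) (Fin n) ℂ).mulVecLin with hf
  have hff : ∀ x, f (f x) = x := fun x => by
    rw [hf, Matrix.mulVecLin_apply, Matrix.mulVecLin_apply, Matrix.mulVec_mulVec, hjj, Matrix.one_mulVec]
  let P : Submodule ℂ (Fin n → ℂ) := LinearMap.ker (f - LinearMap.id)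
  let Q : Submodule ℂ (Fin n → ℂ) := LinearMap.ker (f + LinearMap.id)
  have hP : ∀ x, x ∈ P ↔ f x = x := fun x => by
    rw [LinearMap.mem_ker, LinearMap.sub_apply, LinearMap.id_apply, sub_eq_zero]
  have hQ : ∀ x, x ∈ Q ↔ f x = -x := fun x => by
    rw [LinearMap.mem_ker, LinearMap.add_apply, LinearMap.id_apply, add_eq_zero_iff_eq_neg]
  have hcompl : IsCompl P Q := by
    constructor
    · rw [Submodule.disjoint_def]
      intro x hx hy
      rw [hP] at hx
      rw [hQ, hx] at hy
      have : (2 : ℂ) • x = 0 := by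
        rw [two_smul]
        nth_rewrite 1 [hy]
        exact neg_add_cancel x
      exact (smul_eq_zero.1 this).resolve_left two_ne_zero
    · rw [codisjoint_iff, eq_top_iff]
      intro x _
      have e1 : x = (1 / 2 : ℂ) • (x + f x) + (1 / 2 : ℂ) • (x - f x) := by
        rw [← smul_add, add_add_sub_cancel, ← two_smul ℂ x, smul_smul]
        norm_num
      rw [e1]
      refine Submodule.add_mem_sup (P.smul_mem _ ?_) (Q.smul_mem _ ?_)
      · rw [hP, map_add, hff, add_comm]
      · rw [hQ, map_sub, hff, neg_sub]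
  let bP := Module.finBasis ℂ P
  let bQ := Module.finBasis ℂ Q
  let B0 := (bP.prod bQ).map (Submodule.prodEquivOfIsCompl P Q hcompl)
  have hcard : Fintype.card (Fin (Module.finrank ℂ P) ⊕ Fin (Module.finrank ℂ Q)) = Fintype.card (Fin n) := by
    rw [← Module.finrank_eq_card_basis B0, Module.finrank_fintype_fun_eq_card]
  let eqv := Fintype.equivOfCardEq hcard
  let B := B0.reindex eqv
  let s : Fin n → ℚ := fun i => if (eqv.symm i).isLeft then 1 else -1
  have hs : ∀ i, s i * s i = 1 := by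
    intro i
    by_cases h : (eqv.symm i).isLeft <;> simp [s, h]
  have hB : ∀ i, f (B i) = (s i : ℂ) • B i := by
    intro i
    have e0 : B i = B0 (eqv.symm i) := by simp [B]
    rw [e0]
    rcases h : eqv.symm i with k | k
    · have e1 : B0 (Sum.inl k) = (bP k : Fin n → ℂ) := by
        simp [B0]
      have e2 : s i = 1 := by simp [s, h]
      rw [e1, e2, Rat.cast_one, one_smul]
      exact (hP _).1 (bP k).2
    · have e1 : B0 (Sum.inr k) = (bQ k : Fin n → ℂ) := by
        simp [B0]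
      have e2 : s i = -1 := by simp [s, h]
      rw [e1, e2, Rat.cast_neg, Rat.cast_one, neg_one_smul]
      exact (hQ _).1 (bQ k).2
  -- the matrix of the basis
  let D0 : Matrix (Fin n) (Fin n) ℂ := Matrix.of fun a i => B i a
  let D1 : Matrix (Fin n) (Fin n) ℂ := Matrix.of fun i a => B.repr (Pi.single a 1) i
  have hD : D0 * D1 = 1 := by
    ext a a'
    have h1 := congrFun (B.sum_repr (Pi.single a' (1 : ℂ))) a
    rw [Finset.sum_apply] at h1
    rw [Matrix.mul_apply, Matrix.one_apply]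
    rw [Pi.single_apply] at h1
    rw [← h1]
    refine Finset.sum_congr rfl fun i _ => ?_
    show B i a * B.repr (Pi.single a' 1) i = (B.repr (Pi.single a' 1) i • B i) a
    rw [Pi.smul_apply, smul_eq_mul, mul_comm]
  have hD' : D1 * D0 = 1 := mul_eq_one_comm.1 hD
  let w : GL (Fin n) ℚ := ⟨Matrix.diagonal s, Matrix.diagonal s, by
    rw [Matrix.diagonal_mul_diagonal]
    simp only [hs]
    exact Matrix.diagonal_one, by
    rw [Matrix.diagonal_mul_diagonal]
    simp only [hs]
    exact Matrix.diagonal_one⟩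
  refine ⟨⟨D0, D1, hD, hD'⟩, w, ?_⟩
  rw [eq_mul_inv_iff_mul_eq]
  apply Units.ext
  show (j : Matrix (Fin n) (Fin n) ℂ) * D0 = D0 * (Matrix.diagonal s).map (algebraMap ℚ ℂ)
  rw [Matrix.diagonal_map (map_zero _)]
  ext a i
  rw [Matrix.mul_diagonal]
  have h1 := congrFun (hB i) a
  have h2 : f (B i) a = ((j : Matrix (Fin n) (Fin n) ℂ) * D0) a i := by
    rw [hf, Matrix.mulVecLin_apply]
    rfl
  rw [← h2, h1, Pi.smul_apply, smul_eq_mul, mul_comm]
  rfl

/-! ### representations -/

section rep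

variable {ι : Type} {E : ι → Type} {N : ι → ℕ} {r : ℕ} (ρ : ProdRep E N r) (C : Conj E N)
  (Φ : GL (Fin r) ℚ)
  (frob : ∀ (A : Type) [CommRing A] [Algebra ℚ A] (g : Pts E N A),
    bcG A Φ * ρ.map A g = ρ.map A (C.theta A g) * bcG A Φ)

include frob in
theorem rho_comm (A : Type) [CommRing A] [Algebra ℚ A] {g : Pts E N A} (hg : C.theta A g = g) :
    (ρ.map A g : Matrix (Fin r) (Fin r) A) * bc A (Φ : Matrix (Fin r) (Fin r) ℚ) =
      bc A (Φ : Matrix (Fin r) (Fin r) ℚ) * (ρ.map A g : Matrix (Fin r) (Fin r) A) := by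
  have h := frob A g
  rw [hg] at h
  exact congrArg (fun x : GL (Fin r) A => (x : Matrix (Fin r) (Fin r) A)) h.symm

include frob in
theorem rho_anti (A : Type) [CommRing A] [Algebra ℚ A] {g z : Pts E N A} (hg : C.theta A g = z * g)
    (hz : ρ.map A z = -1) :
    (ρ.map A g : Matrix (Fin r) (Fin r) A) * bc A (Φ : Matrix (Fin r) (Fin r) ℚ) =
      -(bc A (Φ : Matrix (Fin r) (Fin r) ℚ) * (ρ.map A g : Matrix (Fin r) (Fin r) A)) := by
  have h := frob A g
  rw [hg, map_mul, hz, neg_one_mul] at h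
  have h1 := congrArg (fun x : GL (Fin r) A => (x : Matrix (Fin r) (Fin r) A)) h
  have h2 : bc A (Φ : Matrix (Fin r) (Fin r) ℚ) * (ρ.map A g : Matrix (Fin r) (Fin r) A) =
      -(ρ.map A g : Matrix (Fin r) (Fin r) A) * bc A (Φ : Matrix (Fin r) (Fin r) ℚ) := h1
  rw [h2, Matrix.neg_mul, neg_neg]

variable {m : ℕ} (b : Adapt (Φ : Matrix (Fin r) (Fin r) ℚ) m)

section chi

variable {n : ℕ} (φ : FixEmb C n)

/-- a block of `ρ (φ (g))` -/
noncomputable def chi (s : Bool) (A : Type) [CommRing A] [Algebra ℚ A] : GL (Fin n) A →* Aˣ :=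
  b.blk s ((ρ.map A).comp (φ.map A)) fun g => rho_comm ρ C Φ frob A (φ.fix A g)

theorem chi_val (s : Bool) (A : Type) [CommRing A] [Algebra ℚ A] (g : GL (Fin n) A) :
    ((chi ρ C Φ frob b φ s A g : Aˣ) : A) = dia b s (ρ.map A (φ.map A g) : Matrix (Fin r) (Fin r) A) := rfl

theorem chi_nat (s : Bool) {A B : Type} [CommRing A] [Algebra ℚ A] [CommRing B] [Algebra ℚ B] (f : A →ₐ[ℚ] B)
    (g : GL (Fin n) A) : chi ρ C Φ frob b φ s B (Matrix.GeneralLinearGroup.map (f : A →+* B) g) =
      Units.map (f : A →* B) (chi ρ C Φ frob b φ s A g) := by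
  apply Units.ext
  show (bc B (b.C s) * (ρ.map B (φ.map B (Matrix.GeneralLinearGroup.map (f : A →+* B) g)) :
      Matrix (Fin r) (Fin r) B) * bc B (b.B s)).det =
    f ((bc A (b.C s) * (ρ.map A (φ.map A g) : Matrix (Fin r) (Fin r) A) * bc A (b.B s)).det)
  rw [φ.nat, ρ.nat, ← AlgHom.coe_toRingHom f, RingHom.map_det]
  congr 1
  rw [RingHom.mapMatrix_apply, Matrix.map_mul, Matrix.map_mul]
  have e1 := Adapt.map_bc f (b.C s)
  have e2 := Adapt.map_bc f (b.B s)
  rw [AlgHom.coe_toRingHom, e1, e2]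
  rfl

/-- the quotient of the two blocks -/
noncomputable def chiC : Char n where
  F A := (chi ρ C Φ frob b φ false A) * (chi ρ C Φ frob b φ true A)⁻¹
  nat A B _ _ _ _ f g := by
    rw [MonoidHom.mul_apply, MonoidHom.inv_apply, MonoidHom.mul_apply, MonoidHom.inv_apply, chi_nat, chi_nat,
      map_mul, map_inv]

/-- the effect of a conjugation by `φ g` -/
theorem swp_emb {Y : Matrix (Fin r) (Fin r) ℂ}
    (hY : Y * bc ℂ (Φ : Matrix (Fin r) (Fin r) ℚ) = -(bc ℂ (Φ : Matrix (Fin r) (Fin r) ℚ) * Y)) (g : GL (Fin n) ℂ) :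
    swp b ((ρ.map ℂ (φ.map ℂ g) : Matrix (Fin r) (Fin r) ℂ) * Y *
      (((ρ.map ℂ (φ.map ℂ g))⁻¹ : GL (Fin r) ℂ) : Matrix (Fin r) (Fin r) ℂ)) = ((chiC ρ C Φ frob b φ).F ℂ g : ℂˣ) * swp b Y := by
  have h1 : (((ρ.map ℂ (φ.map ℂ g))⁻¹ : GL (Fin r) ℂ) : Matrix (Fin r) (Fin r) ℂ) =
      (ρ.map ℂ (φ.map ℂ g⁻¹) : Matrix (Fin r) (Fin r) ℂ) := by
    rw [map_inv, map_inv]
  rw [h1, swp_conj b (rho_comm ρ C Φ frob ℂ (φ.fix ℂ g⁻¹)) hY]
  have h2 : ((chiC ρ C Φ frob b φ).F ℂ g : ℂˣ) =
      chi ρ C Φ frob b φ false ℂ g * chi ρ C Φ frob b φ true ℂ g⁻¹ := by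
    rw [map_inv]
    rfl
  rw [h2, Units.val_mul, chi_val, chi_val]
  ring

end chi

end rep

end Pool.Agent.H97.NF
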