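import Pool.Agent.H97.NF.Vanish

set_option autoImplicit false
set_option linter.unusedSectionVars false

/-!
# The main theorem: motives over number fields
-/

namespace Pool.Agent.H97.NF

open Matrix Pool.Agent.X274.PR Pool.Agent.X33.DP Pool.Agent.X33.DP.PMot

section

variable {ι : Type} {K : ι → Type} [∀ i, Field (K i)] (M : ∀ i, NFMot (K i))

/-- the places and the ranks -/
abbrev Emb (K : ι → Type) [∀ i, Field (K i)] : ι → Type := fun i => K i →+* ℂ

/-- the ranks -/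
abbrev rk (M : ∀ i, NFMot (K i)) : ι → ℕ := fun i => (M i).N

/-- complex conjugation on the embeddings and the maps `F_∞` -/
def conjOf : Conj (Emb K) (rk M) where
  c _ σ := bar σ
  cc _ σ := bar_bar σ
  F i σ := ⟨(M i).F σ, (M i).F (bar σ), (M i).F_bar' σ, (M i).F_bar σ⟩
  FF i σ := Units.ext ((M i).F_bar σ)

/-- the operator `J_S` -/
noncomputable def JS (S : ∀ i, Set (Emb K i)) (h0 : ∀ i, ∀ σ ∈ S i, (M i).NoMiddle σ) : Pts (Emb K) (rk M) ℂ := by
  classical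
  exact fun i σ => if h : σ ∈ S i then (exists_sign' ((M i).hodge σ) (h0 i σ h)).choose else 1

variable {S : ∀ i, Set (Emb K i)} (h0 : ∀ i, ∀ σ ∈ S i, (M i).NoMiddle σ)

theorem JS_pos {i : ι} {σ : Emb K i} (h : σ ∈ S i) :
    JS M S h0 i σ = (exists_sign' ((M i).hodge σ) (h0 i σ h)).choose := by
  unfold JS
  rw [dif_pos h]

theorem JS_neg {i : ι} {σ : Emb K i} (h : σ ∉ S i) : JS M S h0 i σ = 1 := by
  unfold JS
  rw [dif_neg h]

theorem JS_sign {i : ι} {σ : Emb K i} (h : σ ∈ S i) : ∀ p, ∀ x ∈ (M i).H σ p,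
    (JS M S h0 i σ : Matrix (Fin (M i).N) (Fin (M i).N) ℂ).mulVec x = (((2 * p - (M i).w).sign : ℤ) : ℂ) • x := by
  rw [JS_pos M h0 h]
  exact (exists_sign' ((M i).hodge σ) (h0 i σ h)).choose_spec.1

theorem isJ (hS : ∀ i σ, bar σ ∈ S i ↔ σ ∈ S i) : IsJ (conjOf M) S (JS M S h0) where
  sq := by
    funext i σ
    show JS M S h0 i σ * JS M S h0 i σ = 1
    by_cases h : σ ∈ S i
    · rw [JS_pos M h0 h]
      exact (exists_sign' ((M i).hodge σ) (h0 i σ h)).choose_spec.2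
    · rw [JS_neg M h0 h, mul_one]
  theta := by
    funext i σ
    rw [Conj.theta_apply]
    show bcG ℂ ((conjOf M).F i (bar σ)) * JS M S h0 i (bar σ) * bcG ℂ ((conjOf M).F i σ) = sgn S ℂ i σ * JS M S h0 i σ
    by_cases h : σ ∈ S i
    · have h' : bar σ ∈ S i := (hS i σ).2 h
      rw [sgn_pos S ℂ h, neg_one_mul]
      apply Units.ext
      show bc ℂ ((M i).F (bar σ)) * (JS M S h0 i (bar σ) : Matrix (Fin (M i).N) (Fin (M i).N) ℂ) * bc ℂ ((M i).F σ) =
        -(JS M S h0 i σ : Matrix (Fin (M i).N) (Fin (M i).N) ℂ)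
      rw [(M i).F_sign (J' := (JS M S h0 i σ : Matrix (Fin (M i).N) (Fin (M i).N) ℂ)) (JS_sign M h0 h')
        (by rw [bar_bar]; exact JS_sign M h0 h), Matrix.neg_mul, Matrix.mul_assoc, ← bc_mul, (M i).F_bar, bc_one,
        Matrix.mul_one]
    · have h' : bar σ ∉ S i := fun h1 => h ((hS i σ).1 h1)
      rw [sgn_neg S ℂ h, JS_neg M h0 h, JS_neg M h0 h', mul_one, mul_one]
      exact (conjOf M).bFF ℂ i σ
  off i σ h := JS_neg M h0 h

/-- `J_S` preserves the Hodge decompositions -/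
theorem JS_hodge : ∀ i σ p, ∀ x ∈ (M i).H σ p,
    (JS M S h0 i σ : Matrix (Fin (M i).N) (Fin (M i).N) ℂ).mulVec x ∈ (M i).H σ p := by
  intro i σ p x hx
  by_cases h : σ ∈ S i
  · rw [JS_sign M h0 h p x hx]
    exact Submodule.smul_mem _ _ hx
  · rw [JS_neg M h0 h]
    show (1 : Matrix (Fin (M i).N) (Fin (M i).N) ℂ).mulVec x ∈ _
    rw [Matrix.one_mulVec]
    exact hx

end

theorem Sim.prod {α : Type} (s : Finset α) {f g : α → ℂ} (h : ∀ a ∈ s, Sim (f a) (g a)) :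
    Sim (∏ a ∈ s, f a) (∏ a ∈ s, g a) := by
  classical
  induction s using Finset.induction_on with
  | empty => exact Sim.refl _
  | insert a s ha ih =>
    rw [Finset.prod_insert ha, Finset.prod_insert ha]
    exact (h a (Finset.mem_insert_self a s)).mul (ih fun b hb => h b (Finset.mem_insert_of_mem hb))

section main

variable {ι : Type} [Fintype ι] [DecidableEq ι] {K : ι → Type} [∀ i, Field (K i)] [∀ i, NumberField (K i)]
  [∀ i, DecidableEq (Emb K i)] (M : ∀ i, NFMot (K i)) (T : PMot ℚ ℂ) (ρ : ProdRep (Emb K) (rk M) T.N)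

/-- `F_∞` of `T` in the general linear group -/
def frobT : GL (Fin T.N) ℚ := ⟨T.F, T.F, T.F_sq, T.F_sq⟩

/-- the hypotheses -/
structure IsCon : Prop where
  frob : ∀ (A : Type) [CommRing A] [Algebra ℚ A] (g : Pts (Emb K) (rk M) A),
    bcG A (frobT T) * ρ.map A g = ρ.map A ((conjOf M).theta A g) * bcG A (frobT T)
  hodge : ∀ g : Pts (Emb K) (rk M) ℂ,
    (∀ i σ p, ∀ x ∈ (M i).H σ p, (g i σ : Matrix (Fin (M i).N) (Fin (M i).N) ℂ).mulVec x ∈ (M i).H σ p) →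
    ∀ p, ∀ y ∈ T.H p, (ρ.map ℂ g : Matrix (Fin T.N) (Fin T.N) ℂ).mulVec y ∈ T.H p

/-- an odd set of places -/
structure OddSet {r : ℕ} (ρ : ProdRep (Emb K) (rk M) r) (S : ∀ i, Set (Emb K i)) : Prop where
  stable : ∀ i σ, bar σ ∈ S i ↔ σ ∈ S i
  noMiddle : ∀ i, ∀ σ ∈ S i, (M i).NoMiddle σ
  odd : ρ.map ℚ (sgn S ℚ) = -1

open Classical in
/-- the real places in `S` -/
noncomputable def realIn (S : ∀ i, Set (Emb K i)) (i : ι) : Finset (K i →+* ℂ) :=
  Finset.univ.filter fun v => bar v = v ∧ v ∈ S i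

theorem main (h : IsCon M T ρ) (hT : T.NoMiddle) {S : ∀ i, Set (Emb K i)} (hS : OddSet M ρ S) :
    ∃ k : ∀ i, (K i →+* ℂ) → ℤ,
      (∀ i v, bar v = v → v ∈ S i → (k i v : ℚ) * (M i).N = (T.F * (ρ.at i v).der ((M i).F v)).trace) ∧
      (∀ S', OddSet M ρ S' → ∀ i v, bar v = v → v ∈ S i → v ∉ S' i → k i v = 0) ∧
      ∀ c c' : ∀ i, (K i →+* ℂ) → ℂ,
        (∀ i v, bar v = v → v ∈ S i → (M i).IsPeriods v (c i v) (c' i v)) →
        ∀ t t' : ℂ, T.IsPeriod 1 t → T.IsPeriod (-1) t' →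
          Sim (t / t') (∏ i, ∏ v ∈ realIn S i, (c i v / c' i v) ^ k i v) := by
  classical
  set C := conjOf M with hC
  set Φ := frobT T with hΦ
  obtain ⟨t0, ht0⟩ := T.exists_isPeriod hT 1
  obtain ⟨t1, ht1⟩ := T.exists_isPeriod hT (-1)
  have nt0 : t0 ≠ 0 := (isUnit_isPeriod hT ht0).ne_zero
  have nt1 : t1 ≠ 0 := (isUnit_isPeriod hT ht1).ne_zero
  obtain ⟨m, b, hb⟩ := ratio T ht0 ht1
  obtain ⟨KT, hK1, hK2, hK3, hK4⟩ := exists_sign T hT
  have hKK : (KT : Matrix (Fin T.N) (Fin T.N) ℂ) * (KT : Matrix (Fin T.N) (Fin T.N) ℂ) = 1 := by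
    rw [← Units.val_mul, hK2, Units.val_one]
  -- the bases at the real places
  have hreal : ∀ i v, bar v = v → v ∈ S i → ∃ (n : ℕ), Nonempty (Adapt ((M i).F v) n) := by
    intro i v hv hvS
    obtain ⟨c, c', hc⟩ := (M i).exists_periods hv (hS.noMiddle i v hvS)
    obtain ⟨n, a, -⟩ := (M i).ratio_real (hS.noMiddle i v hvS) hc ((M i).F_sq_real hv)
    exact ⟨n, ⟨a⟩⟩
  let nn : ∀ i, Emb K i → ℕ := fun i v =>
    if h : bar v = v ∧ v ∈ S i then (hreal i v h.1 h.2).choose else 0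
  have hnn : ∀ i v (h1 : bar v = v) (h2 : v ∈ S i), Nonempty (Adapt ((M i).F v) (nn i v)) := by
    intro i v h1 h2
    have : nn i v = (hreal i v h1 h2).choose := dif_pos ⟨h1, h2⟩
    rw [this]
    exact (hreal i v h1 h2).choose_spec
  let a : RealBases C S := ⟨nn, fun i v h1 h2 => (hnn i v h1 h2).some⟩
  have hJ := isJ M hS.noMiddle hS.stable
  have hodd := odd_base ρ hS.odd ℂ
  -- the exponents
  have hk0 : ∀ i v (h1 : bar v = v) (h2 : v ∈ S i), ∃ k : ℤ,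
      (k : ℚ) * (M i).N = (T.F * (ρ.at i v).der ((M i).F v)).trace ∧
      ((M i).N = 0 → k = 0) ∧
      ∀ g : GL (Fin (a.n i v)) ℂ, (chiC ρ C Φ h.frob b (realEmb C h1 (a.a i v h1 h2))).F ℂ g =
        (Matrix.GeneralLinearGroup.det g) ^ k := by
    intro i v h1 h2
    obtain ⟨k, hk, hk'⟩ := real_char ρ C Φ h.frob b h1 (a.a i v h1 h2) hJ.sq hJ.theta hodd
    by_cases hN : (M i).N = 0
    · refine ⟨0, ?_, fun _ => rfl, fun g => ?_⟩
      · have : (k : ℚ) * (M i).N = 0 := by rw [hN, Nat.cast_zero, mul_zero]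
        rw [Int.cast_zero, zero_mul, ← this]
        exact hk
      · rw [hk', _root_.zpow_zero]
        have hn : a.n i v = 0 := by
          have e1 := congrArg Matrix.trace (a.a i v h1 h2).sum
          rw [Matrix.trace_add, Matrix.trace_mul_comm, Matrix.trace_mul_comm ((a.a i v h1 h2).B false),
            (a.a i v h1 h2).CB, (a.a i v h1 h2).CB, Matrix.trace_one,
            Matrix.trace_one, Fintype.card_fin, Fintype.card_fin] at e1
          have e2 : ((M i).N : ℚ) = 0 := by rw [hN, Nat.cast_zero]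
          rw [show ((rk M i : ℕ) : ℚ) = 0 from e2] at e1
          have e3 : (a.n i v : ℚ) = 0 := by linarith
          exact_mod_cast e3
        have h8 : Matrix.GeneralLinearGroup.det g = 1 := by
          apply Units.ext
          show (g : Matrix (Fin (a.n i v)) (Fin (a.n i v)) ℂ).det = 1
          have : IsEmpty (Fin (a.n i v)) := by rw [hn]; infer_instance
          exact Matrix.det_isEmpty
        rw [h8, _root_.one_zpow]
    · exact ⟨k, hk, fun h => absurd h hN, hk'⟩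
  choose! k hk1 hk2 hk3 using hk0
  refine ⟨k, hk1, ?_, ?_⟩
  · intro S' hS' i v h1 h2 h3
    have h4 : (T.F * (ρ.at i v).der ((M i).F v)).trace = 0 :=
      trace_vanish ρ C Φ h.frob hS'.odd (isJ M hS'.noMiddle hS'.stable) h3 _
    have h5 := hk1 i v h1 h2
    rw [h4] at h5
    rcases mul_eq_zero.1 h5 with h6 | h6
    · exact_mod_cast h6
    · exact hk2 i v h1 h2 (by exact_mod_cast h6)
  intro c c' hc t t' ht ht'
  -- the value of the determinant at `J_S`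
  obtain ⟨e1, he1, h1⟩ := induct ρ C Φ h.frob b hS.stable hS.odd a (fun x => k x.1 x.2)
    (fun i v h1 h2 g => hk3 i v h1 h2 g) Finset.univ (JS M S hS.noMiddle) hJ
    (fun x hx => absurd (Finset.mem_univ x) hx)
  have hR2 := rho_anti ρ C Φ h.frob ℂ hJ.theta hodd
  have hRR : (ρ.map ℂ (JS M S hS.noMiddle) : Matrix (Fin T.N) (Fin T.N) ℂ) *
      (ρ.map ℂ (JS M S hS.noMiddle) : Matrix (Fin T.N) (Fin T.N) ℂ) = 1 := by
    rw [← Units.val_mul, ← map_mul, hJ.sq, map_one, Units.val_one]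
  have hcomm : (ρ.map ℂ (JS M S hS.noMiddle) : Matrix (Fin T.N) (Fin T.N) ℂ) * (KT : Matrix (Fin T.N) (Fin T.N) ℂ) =
      (KT : Matrix (Fin T.N) (Fin T.N) ℂ) * (ρ.map ℂ (JS M S hS.noMiddle) : Matrix (Fin T.N) (Fin T.N) ℂ) := by
    refine ext_hodge T fun p x hx => ?_
    rw [← Matrix.mulVec_mulVec, ← Matrix.mulVec_mulVec, hK1 p x hx,
      hK1 p _ (h.hodge _ (JS_hodge M hS.noMiddle) p x hx), Matrix.mulVec_smul]
  have hsim1 : Sim (swp b (KT : Matrix (Fin T.N) (Fin T.N) ℂ))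
      (swp b (ρ.map ℂ (JS M S hS.noMiddle) : Matrix (Fin T.N) (Fin T.N) ℂ)) := by
    rcases swp_sign b hRR hR2 hKK hK3 hcomm with h2 | h2
    · exact ⟨1, one_ne_zero, by rw [h2]; push_cast; ring⟩
    · exact ⟨-1, by norm_num, by rw [h2]; push_cast; ring⟩
  obtain ⟨e2, he2, h2⟩ := hb KT hK3 hK4
  have hsim2 : Sim (t0 / t1) (swp b (KT : Matrix (Fin T.N) (Fin T.N) ℂ)) :=
    ⟨e2, he2, by
      rw [h2]
      show (e2 : ℂ) * (t1 * swp b (KT : Matrix (Fin T.N) (Fin T.N) ℂ)) / t1 = _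
      field_simp⟩
  have huT : ∀ {s : ℤˣ} {x y : ℂ}, T.IsPeriod s x → T.IsPeriod s y → Sim x y := by
    intro s x y hx hy
    obtain ⟨e, he, hxy⟩ := Mot.period_unique _ (toMot_isPeriod hx) (toMot_isPeriod hy)
    exact ⟨e, he, hxy⟩
  have hsim3 : Sim (t / t') (∏ x : (i : ι) × Emb K i, (a.term C (JS M S hS.noMiddle) x) ^ k x.1 x.2) :=
    (((huT ht ht0).div (huT ht' ht1)).trans (hsim2.trans hsim1)).trans ⟨e1, he1, h1⟩
  refine hsim3.trans ?_
  rw [Fintype.prod_sigma]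
  refine Sim.prod _ fun i _ => ?_
  have h3 : ∏ v : Emb K i, (a.term C (JS M S hS.noMiddle) ⟨i, v⟩) ^ k i v =
      ∏ v ∈ realIn S i, (a.term C (JS M S hS.noMiddle) ⟨i, v⟩) ^ k i v := by
    symm
    refine Finset.prod_subset (Finset.subset_univ _) fun v _ hv => ?_
    rw [a.term_neg C _ (fun h5 => hv (by
      rw [realIn, Finset.mem_filter]
      exact ⟨Finset.mem_univ _, h5⟩)), _root_.one_zpow]
  show Sim (∏ v : Emb K i, (a.term C (JS M S hS.noMiddle) ⟨i, v⟩) ^ k i v) _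
  rw [h3]
  refine Sim.prod _ fun v hv => Sim.zpow _ ?_
  rw [realIn, Finset.mem_filter] at hv
  obtain ⟨-, hv1, hv2⟩ := hv
  rw [a.term_pos C _ hv1 hv2]
  obtain ⟨n, a', ha'⟩ := (M i).ratio_real (hS.noMiddle i v hv2) (hc i v hv1 hv2) ((M i).F_sq_real hv1)
  have hanti := hJ.anti (i := i) hv1 hv2
  obtain ⟨e3, he3, h4⟩ := ha' (JS M S hS.noMiddle i v : Matrix (Fin (M i).N) (Fin (M i).N) ℂ)
    (JS_sign M hS.noMiddle hv2) hanti
  obtain ⟨e4, he4, h5⟩ := swp_change (a.a i v hv1 hv2) a' hanti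
  have nc := (M i).periods_ne hv1 (hS.noMiddle i v hv2) (hc i v hv1 hv2)
  have s1 : Sim (c i v / c' i v) (swp a' (JS M S hS.noMiddle i v : Matrix (Fin (M i).N) (Fin (M i).N) ℂ)) :=
    ⟨e3, he3, by
      have := nc.2
      rw [h4]
      field_simp⟩
  exact Sim.trans ⟨e4, he4, h5⟩ s1.symm

end main

/-! ### the values of the `L`-function -/

theorem transfer' {T : PMot ℚ ℂ} (hT : T.NoMiddle) {R : ℂ}
    (hR : ∀ t t', T.IsPeriod 1 t → T.IsPeriod (-1) t' → Sim (t / t') R) (m m' : ℤ)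
    (hm : ((-1 : ℤˣ) ^ m') = -(-1) ^ m) {y y' : ℂ} (hy : y' ≠ 0) (hf : DeligneFormula T m' y') :
    DeligneFormula T m y ↔
      ∃ e : ℚ, y = (e : ℂ) * (tpi ((m - m') * T.dim 1) * y' * R ^ (((-1 : ℤˣ) ^ m : ℤˣ) : ℤ)) := by
  have hR' : ∀ (s : ℤˣ) (t t' : ℂ), T.IsPeriod s t → T.IsPeriod (-s) t' → Sim (t / t') (R ^ ((s : ℤˣ) : ℤ)) := by
    intro s t t' ht ht'
    rcases Int.units_eq_one_or s with rfl | rfl
    · rw [Units.val_one, _root_.zpow_one]
      exact hR t t' ht ht'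
    · rw [neg_neg] at ht'
      rw [Units.val_neg, Units.val_one, _root_.zpow_neg, _root_.zpow_one]
      have := (hR t' t ht' ht).inv
      rwa [inv_div] at this
  obtain ⟨t, ht⟩ := T.exists_isPeriod hT ((-1) ^ m)
  obtain ⟨t', ht'⟩ := T.exists_isPeriod hT (-(-1) ^ m)
  have nt : t ≠ 0 := (isUnit_isPeriod hT ht).ne_zero
  have nt' : t' ≠ 0 := (isUnit_isPeriod hT ht').ne_zero
  obtain ⟨e0, he0, h0⟩ := hR' _ t t' ht ht'
  set R1 := R ^ (((-1 : ℤˣ) ^ m : ℤˣ) : ℤ) with hR1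
  obtain ⟨e1, h1⟩ := hf t' (by rw [hm]; exact ht')
  rw [dim_eq hT _ 1] at h1
  have he1 : e1 ≠ 0 := by
    rintro rfl
    apply hy
    rw [h1]
    push_cast
    ring
  have e0' : (e0 : ℂ) ≠ 0 := by exact_mod_cast he0
  have e1' : (e1 : ℂ) ≠ 0 := by exact_mod_cast he1
  have h2 : tpi (m * T.dim 1) * t = ((e0 / e1 : ℚ) : ℂ) * (tpi ((m - m') * T.dim 1) * y' * R1) := by
    have h3 : t = (e0 : ℂ) * R1 * t' := by
      rw [← h0]
      field_simp
    have h4 : tpi (m * T.dim 1) = tpi ((m - m') * T.dim 1) * tpi (m' * T.dim 1) := by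
      rw [← tpi_add]
      congr 1
      ring
    rw [h4, h3, h1]
    push_cast
    field_simp
  constructor
  · intro hF
    obtain ⟨e, he⟩ := hF t ht
    rw [dim_eq hT _ 1, h2] at he
    exact ⟨e * (e0 / e1), by rw [he]; push_cast; ring⟩
  · rintro ⟨e, he⟩ t2 ht2
    obtain ⟨f, hf0, h5⟩ := Mot.period_unique _ (toMot_isPeriod ht) (toMot_isPeriod ht2)
    have h6 : t = (f : ℂ) * t2 := h5
    have f0' : (f : ℂ) ≠ 0 := by exact_mod_cast hf0
    refine ⟨e * (e1 / e0) * f, ?_⟩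
    rw [dim_eq hT _ 1]
    have h7 : tpi ((m - m') * T.dim 1) * y' * R1 = ((e1 / e0 : ℚ) : ℂ) * (tpi (m * T.dim 1) * t) := by
      rw [h2]
      push_cast
      field_simp
    rw [he, h7, h6]
    push_cast
    ring

end Pool.Agent.H97.NF
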