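import Pool.Graph.R_pool_sql_team_seeded_64922ed1.X274.PR.Final

set_option autoImplicit false

/-!
# Products of general linear groups, indexed by the places of number fields
-/

namespace Pool.Agent.H97.NF

open Matrix Pool.Agent.X274.PR

/-- the `A`-valued points of `∏ GL(V_σ)`, `V_σ = ℚ ^ (N i)` for `σ ∈ E i` -/
abbrev Pts {ι : Type} (E : ι → Type) (N : ι → ℕ) (A : Type) [CommRing A] : Type :=
  ∀ i, E i → GL (Fin (N i)) A

section

variable {ι : Type} {E : ι → Type} {N : ι → ℕ}

/-- base change -/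
def baseChange {A B : Type} [CommRing A] [CommRing B] (f : A →+* B) : Pts E N A →* Pts E N B where
  toFun g i σ := Matrix.GeneralLinearGroup.map f (g i σ)
  map_one' := by
    funext i σ
    exact map_one _
  map_mul' g h := by
    funext i σ
    exact map_mul _ _ _

theorem baseChange_apply {A B : Type} [CommRing A] [CommRing B] (f : A →+* B) (g : Pts E N A) (i : ι)
    (σ : E i) : baseChange f g i σ = Matrix.GeneralLinearGroup.map f (g i σ) := rfl

variable (E N)

/-- An algebraic representation of dimension `r` of the algebraic group `∏ GL(V_σ)` over `ℚ`: a homomorphism of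
functors of points. -/
structure ProdRep (r : ℕ) where
  /-- the homomorphism on `A`-valued points -/
  map : ∀ (A : Type) [CommRing A] [Algebra ℚ A], Pts E N A →* GL (Fin r) A
  nat : ∀ (A B : Type) [CommRing A] [Algebra ℚ A] [CommRing B] [Algebra ℚ B] (f : A →ₐ[ℚ] B) (g : Pts E N A),
    map B (baseChange (f : A →+* B) g) = Matrix.GeneralLinearGroup.map (f : A →+* B) (map A g)

variable {E N}

/-- the element `g` at the place `σ` -/
def single [DecidableEq ι] [∀ i, DecidableEq (E i)] (A : Type) [CommRing A] (i : ι) (σ : E i) :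
    GL (Fin (N i)) A →* Pts E N A :=
  (MonoidHom.mulSingle (fun i => E i → GL (Fin (N i)) A) i).comp
    (MonoidHom.mulSingle (fun _ : E i => GL (Fin (N i)) A) σ)

theorem map_GL_one {A B : Type} [CommRing A] [CommRing B] (f : A →+* B) {n : ℕ} :
    Matrix.GeneralLinearGroup.map (n := Fin n) f 1 = 1 := map_one _

section single

variable [DecidableEq ι] [∀ i, DecidableEq (E i)]

theorem single_same (A : Type) [CommRing A] (i : ι) (σ : E i) (g : GL (Fin (N i)) A) :
    single (E := E) A i σ g i σ = g := by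
  simp [single]

theorem single_ne (A : Type) [CommRing A] (i : ι) (σ τ : E i) (h : τ ≠ σ) (g : GL (Fin (N i)) A) :
    single (E := E) A i σ g i τ = 1 := by
  simp [single, h]

theorem single_ne' (A : Type) [CommRing A] (i j : ι) (h : j ≠ i) (σ : E i) (τ : E j) (g : GL (Fin (N i)) A) :
    single (E := E) A i σ g j τ = 1 := by
  simp [single, h]

theorem single_nat {A B : Type} [CommRing A] [CommRing B] (f : A →+* B) (i : ι) (σ : E i)
    (g : GL (Fin (N i)) A) :
    baseChange f (single (E := E) A i σ g) = single B i σ (Matrix.GeneralLinearGroup.map f g) := by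
  funext j τ
  rw [baseChange_apply]
  by_cases h : j = i
  · subst h
    by_cases h' : τ = σ
    · subst h'
      rw [single_same, single_same]
    · rw [single_ne _ _ _ _ h', single_ne _ _ _ _ h', map_one]
  · rw [single_ne' _ _ _ h, single_ne' _ _ _ h, map_one]

/-- the representation of the factor `GL(V_σ)` -/
def ProdRep.at {r : ℕ} (ρ : ProdRep E N r) (i : ι) (σ : E i) : AlgRep (N i) r where
  map A _ _ := (ρ.map A).comp (single A i σ)
  nat A B _ _ _ _ f g := by
    show ρ.map B (single B i σ _) = _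
    rw [← single_nat, ρ.nat]
    rfl

theorem ProdRep.at_map {r : ℕ} (ρ : ProdRep E N r) (i : ι) (σ : E i) (A : Type) [CommRing A] [Algebra ℚ A]
    (g : GL (Fin (N i)) A) : (ρ.at i σ).map A g = ρ.map A (single A i σ g) := rfl

end single

/-! ### the involution -/

/-- complex conjugation `c` on the places, and the rational maps `F_σ : V_σ → V_σ̄` -/
structure Conj (E : ι → Type) (N : ι → ℕ) where
  /-- complex conjugation -/
  c : ∀ i, E i → E i
  cc : ∀ i σ, c i (c i σ) = σ
  /-- `F_σ` -/
  F : ∀ i, E i → GL (Fin (N i)) ℚ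
  FF : ∀ i σ, F i (c i σ) * F i σ = 1

variable (C : Conj E N)

theorem Conj.FF' (i : ι) (σ : E i) : C.F i σ * C.F i (C.c i σ) = 1 := by
  have := C.FF i (C.c i σ)
  rwa [C.cc] at this

theorem Conj.F_inv (i : ι) (σ : E i) : C.F i (C.c i σ) = (C.F i σ)⁻¹ := eq_inv_of_mul_eq_one_left (C.FF i σ)

theorem bcG_mul (A : Type) [CommRing A] [Algebra ℚ A] {n : ℕ} (g h : GL (Fin n) ℚ) :
    bcG A (g * h) = bcG A g * bcG A h := map_mul _ _ _

theorem bcG_one (A : Type) [CommRing A] [Algebra ℚ A] {n : ℕ} : bcG A (1 : GL (Fin n) ℚ) = 1 := map_one _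

theorem Conj.bFF (A : Type) [CommRing A] [Algebra ℚ A] (i : ι) (σ : E i) :
    bcG A (C.F i (C.c i σ)) * bcG A (C.F i σ) = 1 := by
  rw [← bcG_mul, C.FF, bcG_one]

theorem Conj.bFF' (A : Type) [CommRing A] [Algebra ℚ A] (i : ι) (σ : E i) :
    bcG A (C.F i σ) * bcG A (C.F i (C.c i σ)) = 1 := by
  rw [← bcG_mul, C.FF', bcG_one]

/-- conjugation by `F_∞`: `(g_σ) ↦ (F_σ⁻¹ g_σ̄ F_σ)` -/
def Conj.theta (A : Type) [CommRing A] [Algebra ℚ A] : Pts E N A →* Pts E N A where
  toFun g i σ := bcG A (C.F i (C.c i σ)) * g i (C.c i σ) * bcG A (C.F i σ)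
  map_one' := by
    funext i σ
    show _ * 1 * _ = 1
    rw [mul_one, C.bFF]
  map_mul' g h := by
    funext i σ
    show _ * (g i _ * h i _) * _ = (_ * g i _ * _) * (_ * h i _ * _)
    have := C.bFF' A i σ
    calc bcG A (C.F i (C.c i σ)) * (g i (C.c i σ) * h i (C.c i σ)) * bcG A (C.F i σ)
        = bcG A (C.F i (C.c i σ)) * g i (C.c i σ) * 1 * h i (C.c i σ) * bcG A (C.F i σ) := by
          simp only [mul_one, mul_assoc]
      _ = _ := by rw [← this]; simp only [mul_assoc]

theorem Conj.theta_apply (A : Type) [CommRing A] [Algebra ℚ A] (g : Pts E N A) (i : ι) (σ : E i) :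
    C.theta A g i σ = bcG A (C.F i (C.c i σ)) * g i (C.c i σ) * bcG A (C.F i σ) := rfl

/-- an embedding of `GL_n` into the elements fixed by `theta` -/
structure FixEmb (n : ℕ) where
  /-- the homomorphism on points -/
  map : ∀ (A : Type) [CommRing A] [Algebra ℚ A], GL (Fin n) A →* Pts E N A
  nat : ∀ (A B : Type) [CommRing A] [Algebra ℚ A] [CommRing B] [Algebra ℚ B] (f : A →ₐ[ℚ] B) (g : GL (Fin n) A),
    map B (Matrix.GeneralLinearGroup.map (f : A →+* B) g) = baseChange (f : A →+* B) (map A g)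
  fix : ∀ (A : Type) [CommRing A] [Algebra ℚ A] (g : GL (Fin n) A), C.theta A (map A g) = map A g

theorem Conj.c_ne {i : ι} {σ τ : E i} (h : τ ≠ C.c i σ) : C.c i τ ≠ σ := by
  rintro rfl
  exact h (C.cc i τ).symm

variable [DecidableEq ι] [∀ i, DecidableEq (E i)]

/-- the embedding at a real place -/
def realEmb {i : ι} {v : E i} (hv : C.c i v = v) {n : ℕ}
    (a : Adapt (C.F i v : Matrix (Fin (N i)) (Fin (N i)) ℚ) n) : FixEmb C n where
  map A _ _ := (single A i v).comp (a.emb A)
  nat A B _ _ _ _ f g := by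
    show single B i v (a.emb B _) = baseChange _ (single A i v (a.emb A g))
    rw [single_nat, a.emb_nat]
  fix A _ _ g := by
    show C.theta A (single A i v (a.emb A g)) = single A i v (a.emb A g)
    funext j τ
    rw [C.theta_apply]
    by_cases h : j = i
    · subst h
      by_cases h' : τ = v
      · subst h'
        rw [single_same]
        have e1 : single (E := E) A j τ (a.emb A g) j (C.c j τ) = a.emb A g := by
          rw [hv, single_same]
        rw [e1]
        have e2 : a.emb A g * bcG A (C.F j τ) = bcG A (C.F j τ) * a.emb A g := Units.ext (a.emb_F A g)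
        rw [mul_assoc, e2, ← mul_assoc, C.bFF, one_mul]
      · have h'' : C.c j τ ≠ v := C.c_ne (by rwa [hv])
        rw [single_ne _ _ _ _ h', single_ne _ _ _ _ h'', mul_one, C.bFF]
    · rw [single_ne' _ _ _ h, single_ne' _ _ _ h, mul_one, C.bFF]

/-- the family with `g` at `σ` and `F_σ g F_σ⁻¹` at `σ̄` -/
def pairHom (A : Type) [CommRing A] [Algebra ℚ A] (i : ι) (σ : E i) :
    GL (Fin (N i)) A →* Pts E N A :=
  (MonoidHom.mulSingle (fun i => E i → GL (Fin (N i)) A) i).comp
    (MonoidHom.pi fun τ : E i => if τ = σ then MonoidHom.id _ else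
      if τ = C.c i σ then (MulAut.conj (bcG A (C.F i σ))).toMonoidHom else 1)

theorem pairHom_same (A : Type) [CommRing A] [Algebra ℚ A] (i : ι) (σ : E i) (g : GL (Fin (N i)) A) :
    pairHom C A i σ g i σ = g := by
  simp [pairHom]

theorem pairHom_conj (A : Type) [CommRing A] [Algebra ℚ A] (i : ι) (σ : E i) (h : C.c i σ ≠ σ)
    (g : GL (Fin (N i)) A) :
    pairHom C A i σ g i (C.c i σ) = bcG A (C.F i σ) * g * (bcG A (C.F i σ))⁻¹ := by
  simp [pairHom, h]

theorem pairHom_ne (A : Type) [CommRing A] [Algebra ℚ A] (i : ι) (σ τ : E i) (h : τ ≠ σ)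
    (h' : τ ≠ C.c i σ) (g : GL (Fin (N i)) A) : pairHom C A i σ g i τ = 1 := by
  simp [pairHom, h, h']

theorem pairHom_ne' (A : Type) [CommRing A] [Algebra ℚ A] (i j : ι) (h : j ≠ i) (σ : E i) (τ : E j)
    (g : GL (Fin (N i)) A) : pairHom C A i σ g j τ = 1 := by
  simp [pairHom, h]

theorem bcG_map {A B : Type} [CommRing A] [Algebra ℚ A] [CommRing B] [Algebra ℚ B] (f : A →ₐ[ℚ] B) {n : ℕ}
    (g : GL (Fin n) ℚ) : Matrix.GeneralLinearGroup.map (f : A →+* B) (bcG A g) = bcG B g := by
  apply Units.ext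
  show (bc A (g : Matrix (Fin n) (Fin n) ℚ)).map f = bc B (g : Matrix (Fin n) (Fin n) ℚ)
  exact Adapt.map_bc f _

/-- the embedding at a complex place -/
def cplxEmb (i : ι) (σ : E i) (hσ : C.c i σ ≠ σ) : FixEmb C (N i) where
  map A _ _ := pairHom C A i σ
  nat A B _ _ _ _ f g := by
    funext j τ
    rw [baseChange_apply]
    by_cases h : j = i
    · subst h
      by_cases h' : τ = σ
      · subst h'
        rw [pairHom_same, pairHom_same]
      · by_cases h'' : τ = C.c j σ
        · subst h''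
          rw [pairHom_conj _ _ _ _ hσ, pairHom_conj _ _ _ _ hσ, map_mul, map_mul, map_inv, bcG_map]
        · rw [pairHom_ne _ _ _ _ _ h' h'', pairHom_ne _ _ _ _ _ h' h'', map_one]
    · rw [pairHom_ne' _ _ _ _ h, pairHom_ne' _ _ _ _ h, map_one]
  fix A _ _ g := by
    funext j τ
    rw [C.theta_apply]
    by_cases h : j = i
    · subst h
      by_cases h' : τ = σ
      · subst h'
        rw [pairHom_same, pairHom_conj _ _ _ _ hσ, C.F_inv]
        have : bcG A (C.F j τ)⁻¹ = (bcG A (C.F j τ))⁻¹ := map_inv _ _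
        rw [this]
        group
      · by_cases h'' : τ = C.c j σ
        · subst h''
          have e1 : pairHom C A j σ g j (C.c j (C.c j σ)) = g := by rw [C.cc, pairHom_same]
          have e2 : C.F j (C.c j (C.c j σ)) = C.F j σ := by rw [C.cc]
          rw [e1, e2, pairHom_conj _ _ _ _ hσ, C.F_inv]
          have : bcG A (C.F j σ)⁻¹ = (bcG A (C.F j σ))⁻¹ := map_inv _ _
          rw [this]
        · have h3 : C.c j τ ≠ σ := C.c_ne h''
          have h4 : C.c j τ ≠ C.c j σ := C.c_ne (by rwa [C.cc])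
          rw [pairHom_ne _ _ _ _ _ h' h'', pairHom_ne _ _ _ _ _ h3 h4, mul_one, C.bFF]
    · rw [pairHom_ne' _ _ _ _ h, pairHom_ne' _ _ _ _ h, mul_one, C.bFF]

end

end Pool.Agent.H97.NF
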