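import Pool.Agent.H97.NF.Places

set_option autoImplicit false
set_option linter.unusedSectionVars false

/-!
# The induction over the places
-/

namespace Pool.Agent.H97.NF

open Matrix Pool.Agent.X274.PR

section

variable {ι : Type} {E : ι → Type} {N : ι → ℕ} {r : ℕ}

open Classical in
/-- `-1` at the places in `S`, `1` at the other places -/
noncomputable def sgn (S : ∀ i, Set (E i)) (A : Type) [CommRing A] : Pts E N A :=
  fun i σ => if σ ∈ S i then -1 else 1

theorem sgn_pos (S : ∀ i, Set (E i)) (A : Type) [CommRing A] {i : ι} {σ : E i} (h : σ ∈ S i) :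
    sgn (N := N) S A i σ = -1 := by simp [sgn, h]

theorem sgn_neg (S : ∀ i, Set (E i)) (A : Type) [CommRing A] {i : ι} {σ : E i} (h : σ ∉ S i) :
    sgn (N := N) S A i σ = 1 := by simp [sgn, h]

theorem sgn_central (S : ∀ i, Set (E i)) (A : Type) [CommRing A] (g : Pts E N A) : sgn S A * g = g * sgn S A := by
  funext i σ
  show sgn S A i σ * g i σ = g i σ * sgn S A i σ
  by_cases h : σ ∈ S i
  · rw [sgn_pos S A h, neg_one_mul, mul_neg_one]
  · rw [sgn_neg S A h, one_mul, mul_one]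

theorem bcG_neg (A : Type) [CommRing A] [Algebra ℚ A] {n : ℕ} : bcG A (-1 : GL (Fin n) ℚ) = -1 := by
  apply Units.ext
  rw [bcG_val]
  ext i j
  by_cases hij : i = j
  · subst hij
    simp
  · simp [hij]

theorem sgn_base (S : ∀ i, Set (E i)) (A : Type) [CommRing A] [Algebra ℚ A] :
    baseChange (algebraMap ℚ A) (sgn (N := N) S ℚ) = sgn S A := by
  funext i σ
  rw [baseChange_apply]
  by_cases h : σ ∈ S i
  · rw [sgn_pos S A h, sgn_pos S ℚ h]
    exact bcG_neg A
  · rw [sgn_neg S A h, sgn_neg S ℚ h, map_one]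

variable (ρ : ProdRep E N r) (C : Conj E N) (Φ : GL (Fin r) ℚ)
  (frob : ∀ (A : Type) [CommRing A] [Algebra ℚ A] (g : Pts E N A),
    bcG A Φ * ρ.map A g = ρ.map A (C.theta A g) * bcG A Φ)
  {m : ℕ} (b : Adapt (Φ : Matrix (Fin r) (Fin r) ℚ) m)

theorem rho_base (A : Type) [CommRing A] [Algebra ℚ A] (g : Pts E N ℚ) :
    ρ.map A (baseChange (algebraMap ℚ A) g) = bcG A (ρ.map ℚ g) :=
  ρ.nat ℚ A (Algebra.ofId ℚ A) g

theorem odd_base {S : ∀ i, Set (E i)} (odd : ρ.map ℚ (sgn S ℚ) = -1) (A : Type) [CommRing A] [Algebra ℚ A] :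
    ρ.map A (sgn S A) = -1 := by
  rw [← sgn_base, rho_base, odd, bcG_neg]

/-- bases adapted to `F_v` at the real places `v` in `S` -/
structure RealBases (C : Conj E N) (S : ∀ i, Set (E i)) where
  /-- the dimension of `V_v^±` -/
  n : ∀ i, E i → ℕ
  /-- the bases -/
  a : ∀ i (v : E i), C.c i v = v → v ∈ S i → Adapt (C.F i v : Matrix (Fin (N i)) (Fin (N i)) ℚ) (n i v)

open Classical in
/-- the determinant of `j : V_v⁺ → V_v⁻` at the real places in `S` -/
noncomputable def RealBases.term {S : ∀ i, Set (E i)} (a : RealBases C S) (j : Pts E N ℂ)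
    (x : (i : ι) × E i) : ℂ :=
  if h : C.c x.1 x.2 = x.2 ∧ x.2 ∈ S x.1 then swp (a.a x.1 x.2 h.1 h.2) (j x.1 x.2 : Matrix (Fin (N x.1)) (Fin (N x.1)) ℂ)
    else 1

theorem RealBases.term_pos {S : ∀ i, Set (E i)} (a : RealBases C S) (j : Pts E N ℂ) {i : ι} {v : E i}
    (h1 : C.c i v = v) (h2 : v ∈ S i) :
    a.term C j ⟨i, v⟩ = swp (a.a i v h1 h2) (j i v : Matrix (Fin (N i)) (Fin (N i)) ℂ) := by
  unfold RealBases.term
  rw [dif_pos ⟨h1, h2⟩]

theorem RealBases.term_neg {S : ∀ i, Set (E i)} (a : RealBases C S) (j : Pts E N ℂ) {i : ι} {v : E i}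
    (h : ¬ (C.c i v = v ∧ v ∈ S i)) : a.term C j ⟨i, v⟩ = 1 := by
  unfold RealBases.term
  rw [dif_neg h]

theorem RealBases.term_congr {S : ∀ i, Set (E i)} (a : RealBases C S) {j j' : Pts E N ℂ} {x : (i : ι) × E i}
    (h : j x.1 x.2 = j' x.1 x.2) : a.term C j x = a.term C j' x := by
  unfold RealBases.term
  rw [h]

/-- the elements of the product that behave like the operator `J` -/
structure IsJ (S : ∀ i, Set (E i)) (j : Pts E N ℂ) : Prop where
  sq : j * j = 1
  theta : C.theta ℂ j = sgn S ℂ * j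
  off : ∀ i σ, σ ∉ S i → j i σ = 1

theorem IsJ.conj {C : Conj E N} {S : ∀ i, Set (E i)} {j : Pts E N ℂ} (h : IsJ C S j) {x : Pts E N ℂ}
    (hx : C.theta ℂ x = x) : IsJ C S (x⁻¹ * j * x) where
  sq := by
    have := h.sq
    calc x⁻¹ * j * x * (x⁻¹ * j * x) = x⁻¹ * (j * j) * x := by group
      _ = 1 := by rw [this]; group
  theta := by
    rw [map_mul, map_mul, map_inv, hx, h.theta]
    calc x⁻¹ * (sgn S ℂ * j) * x = x⁻¹ * sgn S ℂ * j * x := by group
      _ = sgn S ℂ * x⁻¹ * j * x := by rw [sgn_central]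
      _ = _ := by group
  off i σ hσ := by
    show (x i σ)⁻¹ * j i σ * x i σ = 1
    rw [h.off i σ hσ, mul_one, inv_mul_cancel]

variable [DecidableEq ι] [∀ i, DecidableEq (E i)]

theorem IsJ.anti {C : Conj E N} {S : ∀ i, Set (E i)} {j : Pts E N ℂ} (h : IsJ C S j) {i : ι} {v : E i}
    (hv : C.c i v = v) (hS : v ∈ S i) :
    (j i v : Matrix (Fin (N i)) (Fin (N i)) ℂ) * bc ℂ (C.F i v : Matrix (Fin (N i)) (Fin (N i)) ℚ) =
      -(bc ℂ (C.F i v : Matrix (Fin (N i)) (Fin (N i)) ℚ) * (j i v : Matrix (Fin (N i)) (Fin (N i)) ℂ)) := by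
  have h1 := congrFun (congrFun h.theta i) v
  rw [C.theta_apply, hv] at h1
  have h2 : ((sgn S ℂ : Pts E N ℂ) * j) i v = -(j i v) := by
    show sgn S ℂ i v * j i v = _
    rw [sgn_pos S ℂ hS, neg_one_mul]
  rw [h2] at h1
  have h3 : bcG ℂ (C.F i v) * bcG ℂ (C.F i v) = 1 := by
    rw [← bcG_mul, show C.F i v * C.F i v = 1 from Units.ext (real_sq C hv), bcG_one]
  have h4 : j i v * bcG ℂ (C.F i v) = -(bcG ℂ (C.F i v) * j i v) := by
    calc j i v * bcG ℂ (C.F i v) = bcG ℂ (C.F i v) * (bcG ℂ (C.F i v) * j i v * bcG ℂ (C.F i v)) := by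
          rw [← mul_assoc, ← mul_assoc, h3, one_mul]
      _ = _ := by rw [h1, mul_neg]
  exact congrArg (fun x : GL (Fin (N i)) ℂ => (x : Matrix (Fin (N i)) (Fin (N i)) ℂ)) h4

/-- rationality at a place -/
def RatAt (j : Pts E N ℂ) (x : (i : ι) × E i) : Prop := ∃ q : GL (Fin (N x.1)) ℚ, j x.1 x.2 = bcG ℂ q

theorem swp_conj_eq {S : ∀ i, Set (E i)} (odd : ρ.map ℚ (sgn S ℚ) = -1) {j : Pts E N ℂ} (h : IsJ C S j)
    {n : ℕ} (φ : FixEmb C n) (g : GL (Fin n) ℂ) :
    swp b (ρ.map ℂ j : Matrix (Fin r) (Fin r) ℂ) =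
      ((chiC ρ C Φ frob b φ).F ℂ g : ℂˣ) *
        swp b (ρ.map ℂ ((φ.map ℂ g)⁻¹ * j * φ.map ℂ g) : Matrix (Fin r) (Fin r) ℂ) := by
  have h' := h.conj (φ.fix ℂ g)
  have hY := rho_anti ρ C Φ frob ℂ h'.theta (odd_base ρ odd ℂ)
  have h1 : j = φ.map ℂ g * ((φ.map ℂ g)⁻¹ * j * φ.map ℂ g) * (φ.map ℂ g)⁻¹ := by group
  have h2 : ρ.map ℂ j = ρ.map ℂ (φ.map ℂ g) * ρ.map ℂ ((φ.map ℂ g)⁻¹ * j * φ.map ℂ g) * (ρ.map ℂ (φ.map ℂ g))⁻¹ := by
    rw [← map_mul, ← map_inv (ρ.map ℂ), ← map_mul, ← h1]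
  rw [← swp_emb ρ C Φ frob b φ hY g, ← Units.val_mul, ← Units.val_mul, ← h2]

theorem induct {S : ∀ i, Set (E i)} (hS : ∀ i σ, C.c i σ ∈ S i ↔ σ ∈ S i) (odd : ρ.map ℚ (sgn S ℚ) = -1)
    (a : RealBases C S) (k : ((i : ι) × E i) → ℤ)
    (hk : ∀ i v (h1 : C.c i v = v) (h2 : v ∈ S i) (g : GL (Fin (a.n i v)) ℂ),
      (chiC ρ C Φ frob b (realEmb C h1 (a.a i v h1 h2))).F ℂ g = (Matrix.GeneralLinearGroup.det g) ^ k ⟨i, v⟩)
    (A : Finset ((i : ι) × E i)) :
    ∀ j : Pts E N ℂ, IsJ C S j → (∀ x, x ∉ A → RatAt j x) →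
      ∃ e : ℚ, e ≠ 0 ∧ swp b (ρ.map ℂ j : Matrix (Fin r) (Fin r) ℂ) = (e : ℂ) * ∏ x ∈ A, (a.term C j x) ^ k x := by
  classical
  induction A using Finset.induction_on with
  | empty =>
    intro j hj hrat
    choose q hq using fun x => hrat x (Finset.notMem_empty x)
    let j0 : Pts E N ℚ := fun i σ => q ⟨i, σ⟩
    have hj0 : j = baseChange (algebraMap ℚ ℂ) j0 := by
      funext i σ
      exact hq ⟨i, σ⟩
    refine ⟨(b.C false * (ρ.map ℚ j0 : Matrix (Fin r) (Fin r) ℚ) * b.B true).det, ?_, ?_⟩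
    · have hY := rho_anti ρ C Φ frob ℂ hj.theta (odd_base ρ odd ℂ)
      have hYY : (ρ.map ℂ j : Matrix (Fin r) (Fin r) ℂ) * (ρ.map ℂ j : Matrix (Fin r) (Fin r) ℂ) = 1 := by
        rw [← Units.val_mul, ← map_mul, hj.sq, map_one, Units.val_one]
      have h1 := right_ne_zero_of_mul_eq_one (swp_unit b hYY hY)
      intro h0
      apply h1
      rw [hj0, rho_base, bcG_val]
      unfold swp
      rw [← bc_mul, ← bc_mul]
      have : (bc ℂ (b.C false * (ρ.map ℚ j0 : Matrix (Fin r) (Fin r) ℚ) * b.B true)).det =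
          algebraMap ℚ ℂ (b.C false * (ρ.map ℚ j0 : Matrix (Fin r) (Fin r) ℚ) * b.B true).det := by
        rw [RingHom.map_det]
        rfl
      rw [this, h0, map_zero]
    · rw [Finset.prod_empty, mul_one, hj0, rho_base, bcG_val]
      unfold swp
      rw [← bc_mul, ← bc_mul]
      have : (bc ℂ (b.C false * (ρ.map ℚ j0 : Matrix (Fin r) (Fin r) ℚ) * b.B true)).det =
          algebraMap ℚ ℂ (b.C false * (ρ.map ℚ j0 : Matrix (Fin r) (Fin r) ℚ) * b.B true).det := by
        rw [RingHom.map_det]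
        rfl
      rw [this]
      rfl
  | insert x A hx ih =>
    obtain ⟨i, v⟩ := x
    intro j hj hrat
    rw [Finset.prod_insert hx]
    by_cases hvS : v ∈ S i
    · by_cases hv : C.c i v = v
      · -- a real place
        obtain ⟨g, hg, hg'⟩ := real_conj C (a.a i v hv hvS) (j i v)
          (by have := congrFun (congrFun hj.sq i) v; exact this) (hj.anti hv hvS)
        set φ := realEmb C hv (a.a i v hv hvS) with hφ
        have hφg : φ.map ℂ g = single ℂ i v ((a.a i v hv hvS).emb ℂ g) := rfl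
        set j' := (φ.map ℂ g)⁻¹ * j * φ.map ℂ g with hj'
        have hsame : j' i v = bcG ℂ (a.a i v hv hvS).w := by
          show (φ.map ℂ g i v)⁻¹ * j i v * φ.map ℂ g i v = _
          rw [hφg, single_same]
          rw [mul_assoc, inv_mul_eq_iff_eq_mul]
          exact (mul_inv_eq_iff_eq_mul.1 hg'.symm).symm
        have hother : ∀ y : (i : ι) × E i, y ≠ ⟨i, v⟩ → j' y.1 y.2 = j y.1 y.2 := by
          rintro ⟨i', τ⟩ hy
          show (φ.map ℂ g i' τ)⁻¹ * j i' τ * φ.map ℂ g i' τ = j i' τ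
          have h1 : φ.map ℂ g i' τ = 1 := by
            rw [hφg]
            by_cases h : i' = i
            · subst h
              refine single_ne _ _ _ _ ?_ _
              rintro rfl
              exact hy rfl
            · exact single_ne' _ _ _ h _ _ _
          rw [h1, inv_one, one_mul, mul_one]
        have hj'J : IsJ C S j' := hj.conj (φ.fix ℂ g)
        obtain ⟨e, he, h2⟩ := ih j' hj'J fun y hy => by
          by_cases hyx : y = ⟨i, v⟩
          · subst hyx
            exact ⟨_, hsame⟩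
          · obtain ⟨q, hq⟩ := hrat y (by
              rw [Finset.mem_insert, not_or]
              exact ⟨hyx, hy⟩)
            exact ⟨q, (hother y hyx).trans hq⟩
        refine ⟨e, he, ?_⟩
        rw [swp_conj_eq ρ C Φ frob b odd hj φ g, ← hj', h2, hk i v hv hvS g, a.term_pos C j hv hvS]
        have h3 : ((Matrix.GeneralLinearGroup.det g ^ k ⟨i, v⟩ : ℂˣ) : ℂ) =
            (swp (a.a i v hv hvS) (j i v : Matrix (Fin (N i)) (Fin (N i)) ℂ)) ^ k ⟨i, v⟩ := by
          rw [Units.val_zpow_eq_zpow_val]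
          congr 1
          show (g : Matrix (Fin (a.n i v)) (Fin (a.n i v)) ℂ).det = _
          rw [hg]
          rfl
        rw [h3]
        have h4 : ∏ y ∈ A, (a.term C j' y) ^ k y = ∏ y ∈ A, (a.term C j y) ^ k y := by
          refine Finset.prod_congr rfl fun y hy => ?_
          rw [a.term_congr C (hother y (by rintro rfl; exact hx hy))]
        rw [h4]
        ring
      · -- a complex place
        obtain ⟨D, w, hD⟩ := exists_rational_conj (j i v)
          (by have := congrFun (congrFun hj.sq i) v; exact this)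
        set φ := cplxEmb C i v hv with hφ
        have hφg : φ.map ℂ D = pairHom C ℂ i v D := rfl
        set j' := (φ.map ℂ D)⁻¹ * j * φ.map ℂ D with hj'
        have hj'J : IsJ C S j' := hj.conj (φ.fix ℂ D)
        have hsame : j' i v = bcG ℂ w := by
          show (φ.map ℂ D i v)⁻¹ * j i v * φ.map ℂ D i v = _
          rw [hφg, pairHom_same, hD]
          group
        have hconj : ∃ q : GL (Fin (N i)) ℚ, j' i (C.c i v) = bcG ℂ q := by
          have h1 := congrFun (congrFun hj'J.theta i) (C.c i v)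
          have h2 : ((sgn S ℂ : Pts E N ℂ) * j') i (C.c i v) = -(j' i (C.c i v)) := by
            show sgn S ℂ i _ * j' i _ = _
            rw [sgn_pos S ℂ ((hS i v).2 hvS), neg_one_mul]
          rw [C.theta_apply, h2] at h1
          refine ⟨-(C.F i (C.c i (C.c i v)) * w * C.F i (C.c i v)), ?_⟩
          have h3 : j' i (C.c i (C.c i v)) = bcG ℂ w := by rw [C.cc, hsame]
          rw [h3] at h1
          rw [← neg_one_mul, bcG_mul, bcG_neg, neg_one_mul, bcG_mul, bcG_mul, h1, neg_neg]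
        have hother : ∀ y : (i : ι) × E i, y ≠ ⟨i, v⟩ → y ≠ ⟨i, C.c i v⟩ → j' y.1 y.2 = j y.1 y.2 := by
          rintro ⟨i', τ⟩ hy hy'
          show (φ.map ℂ D i' τ)⁻¹ * j i' τ * φ.map ℂ D i' τ = j i' τ
          have h1 : φ.map ℂ D i' τ = 1 := by
            rw [hφg]
            by_cases h : i' = i
            · subst h
              refine pairHom_ne _ _ _ _ _ ?_ ?_ _
              · rintro rfl
                exact hy rfl
              · rintro rfl
                exact hy' rfl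
            · exact pairHom_ne' _ _ _ _ h _ _ _
          rw [h1, inv_one, one_mul, mul_one]
        obtain ⟨e, he, h2⟩ := ih j' hj'J fun y hy => by
          by_cases hyx : y = ⟨i, v⟩
          · subst hyx
            exact ⟨_, hsame⟩
          by_cases hyx' : y = ⟨i, C.c i v⟩
          · subst hyx'
            exact hconj
          · obtain ⟨q, hq⟩ := hrat y (by
              rw [Finset.mem_insert, not_or]
              exact ⟨hyx, hy⟩)
            exact ⟨q, (hother y hyx hyx').trans hq⟩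
        refine ⟨e, he, ?_⟩
        rw [swp_conj_eq ρ C Φ frob b odd hj φ D, ← hj', h2,
          cplx_trivial ρ C Φ frob b i v hv hj.sq hj.theta (odd_base ρ odd ℂ), Units.val_one, one_mul,
          a.term_neg C j (fun h => hv h.1), _root_.one_zpow, one_mul]
        congr 1
        refine Finset.prod_congr rfl fun y hy => ?_
        by_cases hyx' : y = ⟨i, C.c i v⟩
        · subst hyx'
          have h5 : ¬ (C.c i (C.c i v) = C.c i v ∧ C.c i v ∈ S i) := by
            rintro ⟨h6, -⟩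
            rw [C.cc] at h6
            exact hv h6.symm
          rw [a.term_neg C j' h5, a.term_neg C j h5]
        · rw [a.term_congr C (hother y (by rintro rfl; exact hx hy) hyx')]
    · -- a place outside `S`
      obtain ⟨e, he, h2⟩ := ih j hj fun y hy => by
        by_cases hyx : y = ⟨i, v⟩
        · subst hyx
          exact ⟨1, by rw [bcG_one]; exact hj.off i v hvS⟩
        · exact hrat y (by
            rw [Finset.mem_insert, not_or]
            exact ⟨hyx, hy⟩)
      refine ⟨e, he, ?_⟩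
      rw [a.term_neg C j (fun h => hvS h.2), _root_.one_zpow, one_mul]
      exact h2

end

end Pool.Agent.H97.NF
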