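import Pool.Agent.H97.NF.Induct

set_option autoImplicit false
set_option linter.unusedSectionVars false

/-!
# Motives over number fields
-/

namespace Pool.Agent.H97.NF

open Matrix Pool.Agent.X274.PR Pool.Agent.X33.DP

/-- the complex conjugate of an embedding -/
def bar {K : Type} [Field K] (σ : K →+* ℂ) : K →+* ℂ := (starRingEnd ℂ).comp σ

theorem bar_bar {K : Type} [Field K] (σ : K →+* ℂ) : bar (bar σ) = σ := by
  ext x
  simp [bar]

/-- The realisations of a pure motive of weight `w` over the number field `K` with rational coefficients, in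
coordinates. For every embedding `σ` of `K` in `ℂ` a basis of the Betti realisation `V_σ` over `ℚ` is fixed, so that
`V_σ = ℚ ^ N`, and a basis of `M_DR` over `K`. `F σ : V_σ → V_σ̄` is the matrix of the map induced by complex
conjugation, `H σ p = M_σ^{p, w - p} ⊆ V_σ ⊗ ℂ`, `fil i` is the Hodge filtration `F^i M` of `M_DR`, a `K`-space, and
`P σ` the matrix of the comparison isomorphism `V_σ ⊗ ℂ → M_DR ⊗_{K, σ} ℂ`. -/
structure NFMot (K : Type) [Field K] where
  /-- the rank -/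
  N : ℕ
  /-- the weight -/
  w : ℤ
  /-- the map `F_∞ : V_σ → V_σ̄` -/
  F : (K →+* ℂ) → Matrix (Fin N) (Fin N) ℚ
  F_bar : ∀ σ, F (bar σ) * F σ = 1
  /-- the Hodge decomposition, `H σ p = M_σ^{p, w - p}` -/
  H : (K →+* ℂ) → ℤ → Submodule ℂ (Fin N → ℂ)
  hodge : ∀ σ, ∃ (v : Module.Basis (Fin N) ℂ (Fin N → ℂ)) (t : Fin N → ℤ),
    ∀ p, H σ p = Submodule.span ℂ (v '' {j | t j = p})
  swap : ∀ σ p, ∀ x ∈ H σ p, ((F σ).map (algebraMap ℚ ℂ)).mulVec x ∈ H (bar σ) (w - p)
  /-- the Hodge filtration of `M_DR` -/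
  fil : ℤ → Submodule K (Fin N → K)
  /-- the comparison isomorphisms -/
  P : (K →+* ℂ) → Matrix (Fin N) (Fin N) ℂ
  P_unit : ∀ σ, IsUnit (P σ)
  comp : ∀ σ i, (⨆ p, ⨆ (_ : i ≤ p), H σ p).map (P σ).mulVecLin =
    Submodule.span ℂ ((fun x j => σ (x j)) '' (fil i : Set (Fin N → K)))

namespace NFMot

variable {K : Type} [Field K] (M : NFMot K)

/-- the eigenspace `V_v^+` (`s = 1`) or `V_v^-` (`s = -1`) of `F_∞` at a real place `v` -/
def eig (v : K →+* ℂ) (s : ℤˣ) : Submodule ℚ (Fin M.N → ℚ) :=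
  LinearMap.ker (M.F v - ((s : ℤ) : ℚ) • (1 : Matrix (Fin M.N) (Fin M.N) ℚ)).mulVecLin

/-- `c` and `c'` are the periods `c^+(M_v)` and `c^-(M_v)` at the real place `v`: the determinants of
`V_v^± ⊗ ℂ → (M_DR / F^±) ⊗_{K, v} ℂ`, `F^± = F^{[(w + 1) / 2]}`, in `ℚ`-bases of `V_v^+` and `V_v^-` and a `K`-basis of
`M_DR / F^±`, the same for both signs. -/
def IsPeriods (v : K →+* ℂ) (c c' : ℂ) : Prop :=
  ∃ (n : ℕ) (B B' : Matrix (Fin M.N) (Fin n) ℚ) (Q : Matrix (Fin n) (Fin M.N) K),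
    Function.Injective B.mulVec ∧ LinearMap.range B.mulVecLin = M.eig v 1 ∧
    Function.Injective B'.mulVec ∧ LinearMap.range B'.mulVecLin = M.eig v (-1) ∧
    Function.Surjective Q.mulVec ∧ LinearMap.ker Q.mulVecLin = M.fil ((M.w + 1) / 2) ∧
    c = (Q.map v * M.P v * B.map (algebraMap ℚ ℂ)).det ∧
    c' = (Q.map v * M.P v * B'.map (algebraMap ℚ ℂ)).det

/-- there are no `(w / 2, w / 2)`-classes in `V_σ ⊗ ℂ` -/
def NoMiddle (σ : K →+* ℂ) : Prop := ∀ p, 2 * p = M.w → M.H σ p = ⊥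

theorem F_bar' (σ : K →+* ℂ) : M.F σ * M.F (bar σ) = 1 := by
  have := M.F_bar (bar σ)
  rwa [bar_bar] at this

end NFMot

/-! ### sign operators -/

theorem ext_hodge' {n : ℕ} {H : ℤ → Submodule ℂ (Fin n → ℂ)}
    (hodge : ∃ (v : Module.Basis (Fin n) ℂ (Fin n → ℂ)) (t : Fin n → ℤ),
      ∀ p, H p = Submodule.span ℂ (v '' {j | t j = p})) {l : Type} {X Y : Matrix l (Fin n) ℂ}
    (h : ∀ p, ∀ x ∈ H p, X.mulVec x = Y.mulVec x) : X = Y := by
  obtain ⟨v, t, hv⟩ := hodge
  have h1 : X.mulVecLin = Y.mulVecLin := v.ext fun j => h (t j) _ (by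
    rw [hv]
    exact Submodule.subset_span ⟨j, rfl, rfl⟩)
  ext i j
  have h2 := congrFun (LinearMap.congr_fun h1 (Pi.single j 1)) i
  simpa using h2

theorem exists_sign' {n : ℕ} {w : ℤ} {H : ℤ → Submodule ℂ (Fin n → ℂ)}
    (hodge : ∃ (v : Module.Basis (Fin n) ℂ (Fin n → ℂ)) (t : Fin n → ℤ),
      ∀ p, H p = Submodule.span ℂ (v '' {j | t j = p})) (h0 : ∀ p, 2 * p = w → H p = ⊥) :
    ∃ J : GL (Fin n) ℂ, (∀ p, ∀ x ∈ H p, (J : Matrix (Fin n) (Fin n) ℂ).mulVec x =
      (((2 * p - w).sign : ℤ) : ℂ) • x) ∧ J * J = 1 := by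
  have hodge' := hodge
  obtain ⟨v, t, hv⟩ := hodge
  let f : (Fin n → ℂ) →ₗ[ℂ] (Fin n → ℂ) := v.constr ℂ fun j => (((2 * t j - w).sign : ℤ) : ℂ) • v j
  have hf : ∀ p, ∀ x ∈ H p, (LinearMap.toMatrix' f).mulVec x = (((2 * p - w).sign : ℤ) : ℂ) • x := by
    intro p x hx
    have e1 : (LinearMap.toMatrix' f).mulVec x = f x := by
      rw [← Matrix.toLin'_apply, Matrix.toLin'_toMatrix']
    rw [e1]
    rw [hv p] at hx
    induction hx using Submodule.span_induction with
    | mem x hx =>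
      obtain ⟨j, hj, rfl⟩ := hx
      rw [show f (v j) = _ from v.constr_basis ℂ _ j, show t j = p from hj]
    | zero => rw [map_zero, smul_zero]
    | add x y _ _ hx hy => rw [map_add, hx (by rw [← Matrix.toLin'_apply, Matrix.toLin'_toMatrix']),
        hy (by rw [← Matrix.toLin'_apply, Matrix.toLin'_toMatrix']), smul_add]
    | smul c x _ hx => rw [map_smul, hx (by rw [← Matrix.toLin'_apply, Matrix.toLin'_toMatrix']), smul_comm]
  have hne : ∀ p, ∀ x ∈ H p, x ≠ 0 → 2 * p ≠ w := by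
    intro p x hx hx0 hp
    rw [h0 p hp, Submodule.mem_bot] at hx
    exact hx0 hx
  have hJJ : LinearMap.toMatrix' f * LinearMap.toMatrix' f = 1 := by
    refine ext_hodge' hodge' fun p x hx => ?_
    rw [← Matrix.mulVec_mulVec, hf p x hx, Matrix.mulVec_smul, hf p x hx, smul_smul, Matrix.one_mulVec]
    by_cases hx0 : x = 0
    · rw [hx0, smul_zero]
    · have h1 := hne p x hx hx0
      have h2 : (2 * p - w).sign * (2 * p - w).sign = 1 := by
        rcases lt_or_gt_of_ne h1 with h | h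
        · rw [Int.sign_eq_neg_one_of_neg (by omega)]
          norm_num
        · rw [Int.sign_eq_one_of_pos (by omega)]
          norm_num
      rw [← Int.cast_mul, h2, Int.cast_one, one_smul]
  exact ⟨⟨LinearMap.toMatrix' f, LinearMap.toMatrix' f, hJJ, hJJ⟩, hf, Units.ext hJJ⟩

namespace NFMot

variable {K : Type} [Field K] (M : NFMot K)

/-- `F_σ J_σ = - J_σ̄ F_σ` -/
theorem F_sign {σ : K →+* ℂ} {J J' : Matrix (Fin M.N) (Fin M.N) ℂ}
    (hJ : ∀ p, ∀ x ∈ M.H σ p, J.mulVec x = (((2 * p - M.w).sign : ℤ) : ℂ) • x)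
    (hJ' : ∀ p, ∀ x ∈ M.H (bar σ) p, J'.mulVec x = (((2 * p - M.w).sign : ℤ) : ℂ) • x) :
    bc ℂ (M.F σ) * J = -(J' * bc ℂ (M.F σ)) := by
  refine ext_hodge' (M.hodge σ) fun p x hx => ?_
  rw [← Matrix.mulVec_mulVec, hJ p x hx, Matrix.mulVec_smul, Matrix.neg_mulVec, ← Matrix.mulVec_mulVec,
    hJ' _ _ (M.swap σ p x hx), ← neg_smul]
  congr 1
  rw [← Int.cast_neg, ← Int.sign_neg]
  congr 2
  ring

/-- the sign operator and the quotient map to `M_DR / F^±` -/
theorem quot_sign {σ : K →+* ℂ} (h0 : M.NoMiddle σ) {J : Matrix (Fin M.N) (Fin M.N) ℂ}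
    (hJ : ∀ p, ∀ x ∈ M.H σ p, J.mulVec x = (((2 * p - M.w).sign : ℤ) : ℂ) • x) {n : ℕ}
    {Q : Matrix (Fin n) (Fin M.N) K} (hQ : LinearMap.ker Q.mulVecLin = M.fil ((M.w + 1) / 2)) :
    Q.map σ * M.P σ * J = -(Q.map σ * M.P σ) := by
  refine ext_hodge' (M.hodge σ) fun p x hx => ?_
  rw [← Matrix.mulVec_mulVec, hJ p x hx, Matrix.mulVec_smul, Matrix.neg_mulVec]
  by_cases hx0 : x = 0
  · rw [hx0, Matrix.mulVec_zero, smul_zero, neg_zero]
  have h1 : 2 * p ≠ M.w := by
    intro hp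
    rw [h0 p hp, Submodule.mem_bot] at hx
    exact hx0 hx
  by_cases hp : M.w < 2 * p
  · have h2 : (Q.map σ * M.P σ).mulVec x = 0 := by
      have h3 : (M.P σ).mulVec x ∈ Submodule.span ℂ ((fun x j => σ (x j)) ''
          (M.fil ((M.w + 1) / 2) : Set (Fin M.N → K))) := by
        rw [← M.comp]
        exact ⟨x, Submodule.mem_iSup_of_mem p (Submodule.mem_iSup_of_mem (by omega) hx), rfl⟩
      rw [← Matrix.mulVec_mulVec]
      have h4 : Submodule.span ℂ ((fun x j => σ (x j)) ''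
          (M.fil ((M.w + 1) / 2) : Set (Fin M.N → K))) ≤ LinearMap.ker (Q.map σ).mulVecLin := by
        rw [Submodule.span_le]
        rintro _ ⟨y, hy, rfl⟩
        have h5 : Q.mulVec y = 0 := by
          rw [← hQ] at hy
          exact hy
        show (Q.map σ).mulVec (fun j => σ (y j)) = 0
        ext i
        have h6 := congrArg σ (congrFun h5 i)
        simp only [Matrix.mulVec, dotProduct, map_sum, map_mul, Pi.zero_apply, map_zero] at h6
        simpa [Matrix.mulVec, dotProduct] using h6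
      exact h4 h3
    rw [h2, smul_zero, neg_zero]
  · rw [Int.sign_eq_neg_one_of_neg (by omega), Int.cast_neg, Int.cast_one, neg_one_smul]

end NFMot

/-! ### bases of the eigenspaces -/

theorem mem_ker_iff {N : ℕ} (F : Matrix (Fin N) (Fin N) ℚ) (s : ℤˣ) (x : Fin N → ℚ) :
    x ∈ LinearMap.ker (F - ((s : ℤ) : ℚ) • (1 : Matrix (Fin N) (Fin N) ℚ)).mulVecLin ↔
      F.mulVec x = ((s : ℤ) : ℚ) • x := by
  rw [LinearMap.mem_ker, Matrix.mulVecLin_apply, Matrix.sub_mulVec, Matrix.smul_mulVec, Matrix.one_mulVec,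
    sub_eq_zero]

/-- the adapted bases given by two matrices -/
theorem adapt_of {N n : ℕ} {F : Matrix (Fin N) (Fin N) ℚ} (hF : F * F = 1) {B B' : Matrix (Fin N) (Fin n) ℚ}
    (hB : Function.Injective B.mulVec)
    (hB' : LinearMap.range B.mulVecLin =
      LinearMap.ker (F - (((1 : ℤˣ) : ℤ) : ℚ) • (1 : Matrix (Fin N) (Fin N) ℚ)).mulVecLin)
    (hB1 : Function.Injective B'.mulVec)
    (hB1' : LinearMap.range B'.mulVecLin =
      LinearMap.ker (F - (((-1 : ℤˣ) : ℤ) : ℚ) • (1 : Matrix (Fin N) (Fin N) ℚ)).mulVecLin) :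
    ∃ a : Adapt F n, a.B true = B ∧ a.B false = B' := by
  have h1 : ∀ x ∈ LinearMap.range B.mulVecLin, F.mulVec x = x := fun x hx => by
    rw [hB', mem_ker_iff] at hx
    simpa using hx
  have h2 : ∀ x ∈ LinearMap.range B'.mulVecLin, F.mulVec x = -x := fun x hx => by
    rw [hB1', mem_ker_iff] at hx
    simpa using hx
  have hFB : F * B = B := by
    ext i j
    have h1 := congrFun (h1 (B.mulVec (Pi.single j 1)) ⟨_, rfl⟩) i
    rw [Matrix.mulVec_mulVec] at h1
    simpa using h1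
  have hFB1 : F * B' = -B' := by
    ext i j
    have h1 := congrFun (h2 (B'.mulVec (Pi.single j 1)) ⟨_, rfl⟩) i
    rw [Matrix.mulVec_mulVec] at h1
    simpa using h1
  obtain ⟨C, hC⟩ := exists_coords (B := B) (X := (1 / 2 : ℚ) • (1 + F)) fun x => by
    rw [hB', mem_ker_iff, Matrix.mulVec_mulVec, Matrix.mul_smul, Matrix.mul_add, Matrix.mul_one, hF,
      Units.val_one, Int.cast_one, one_smul, add_comm]
  obtain ⟨C1, hC1⟩ := exists_coords (B := B') (X := (1 / 2 : ℚ) • (1 - F)) fun x => by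
    rw [hB1', mem_ker_iff, Matrix.mulVec_mulVec, Matrix.mul_smul, Matrix.mul_sub, Matrix.mul_one, hF,
      Units.val_neg, Units.val_one, Int.cast_neg, Int.cast_one, neg_one_smul, ← Matrix.neg_mulVec, ← smul_neg,
      neg_sub]
  have hCB : C * B = 1 := inj_cancel hB (by
    rw [← Matrix.mul_assoc, hC, Matrix.smul_mul, Matrix.add_mul, Matrix.one_mul, hFB, Matrix.mul_one, ← two_smul ℚ B,
      smul_smul]
    norm_num)
  have hC1B1 : C1 * B' = 1 := inj_cancel hB1 (by
    rw [← Matrix.mul_assoc, hC1, Matrix.smul_mul, Matrix.sub_mul, Matrix.one_mul, hFB1, Matrix.mul_one, sub_neg_eq_add,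
      ← two_smul ℚ B', smul_smul]
    norm_num)
  have hCB1 : C * B' = 0 := inj_cancel hB (by
    rw [← Matrix.mul_assoc, hC, Matrix.smul_mul, Matrix.add_mul, Matrix.one_mul, hFB1, Matrix.mul_zero, add_neg_cancel,
      smul_zero])
  have hC1B : C1 * B = 0 := inj_cancel hB1 (by
    rw [← Matrix.mul_assoc, hC1, Matrix.smul_mul, Matrix.sub_mul, Matrix.one_mul, hFB, Matrix.mul_zero, sub_self,
      smul_zero])
  exact ⟨
    { B := fun b => if b then B else B'
      C := fun b => if b then C else C1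
      CB := by
        rintro (_ | _)
        · exact hC1B1
        · exact hCB
      CB' := by
        rintro (_ | _)
        · exact hC1B
        · exact hCB1
      sum := by
        show B * C + B' * C1 = 1
        rw [hC, hC1, ← smul_add, show (1 + F + (1 - F)) = (2 : ℚ) • (1 : Matrix (Fin N) (Fin N) ℚ) by
          rw [two_smul]; abel, smul_smul]
        norm_num
      diff := by
        show B * C - B' * C1 = F
        rw [hC, hC1, ← smul_sub, show (1 + F - (1 - F)) = (2 : ℚ) • F by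
          rw [two_smul]; abel, smul_smul]
        norm_num }, rfl, rfl⟩

theorem basis_mulVec {K : Type} [Field K] {N n : ℕ} {V : Submodule K (Fin N → K)} (b : Module.Basis (Fin n) K V)
    (y : Fin n → K) : (Matrix.of fun i j => (b j : Fin N → K) i).mulVec y =
      ((b.equivFun.symm y : V) : Fin N → K) := by
  rw [Module.Basis.equivFun_symm_apply]
  ext i
  rw [Submodule.coe_sum, Finset.sum_apply]
  show ∑ j, (b j : Fin N → K) i * y j = _
  refine Finset.sum_congr rfl fun j _ => ?_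
  show (b j : Fin N → K) i * y j = (y j • (b j : Fin N → K)) i
  rw [Pi.smul_apply, smul_eq_mul, mul_comm]

/-- a basis of a subspace as a matrix -/
theorem exists_basis_matrix {K : Type} [Field K] {N n : ℕ} (V : Submodule K (Fin N → K))
    (hn : Module.finrank K V = n) :
    ∃ B : Matrix (Fin N) (Fin n) K, Function.Injective B.mulVec ∧ LinearMap.range B.mulVecLin = V := by
  let b := Module.finBasisOfFinrankEq K V hn
  refine ⟨Matrix.of fun i j => (b j : Fin N → K) i, ?_, ?_⟩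
  · intro x y hxy
    rw [basis_mulVec, basis_mulVec] at hxy
    exact b.equivFun.symm.injective (Subtype.ext hxy)
  · ext x
    constructor
    · rintro ⟨y, rfl⟩
      rw [Matrix.mulVecLin_apply, basis_mulVec]
      exact (b.equivFun.symm y).2
    · intro hx
      refine ⟨b.equivFun ⟨x, hx⟩, ?_⟩
      rw [Matrix.mulVecLin_apply, basis_mulVec, LinearEquiv.symm_apply_apply]

end Pool.Agent.H97.NF
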