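import Pool.Agent.H97.NF.Core

set_option autoImplicit false
set_option linter.unusedSectionVars false

/-!
# The characters at the real and complex places
-/

namespace Pool.Agent.H97.NF

open Matrix Pool.Agent.X274.PR

section

variable {ι : Type} [DecidableEq ι] {E : ι → Type} [∀ i, DecidableEq (E i)] {N : ι → ℕ} {r : ℕ}
  (ρ : ProdRep E N r) (C : Conj E N) (Φ : GL (Fin r) ℚ)
  (frob : ∀ (A : Type) [CommRing A] [Algebra ℚ A] (g : Pts E N A),
    bcG A Φ * ρ.map A g = ρ.map A (C.theta A g) * bcG A Φ)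
  {m : ℕ} (b : Adapt (Φ : Matrix (Fin r) (Fin r) ℚ) m)

/-- the scalar `u` at `σ` and `σ̄` -/
theorem pairHom_central (A : Type) [CommRing A] [Algebra ℚ A] (i : ι) (σ : E i) (u : Aˣ) (j : Pts E N A) :
    pairHom C A i σ (Matrix.GeneralLinearGroup.scalar (Fin (N i)) u) * j =
      j * pairHom C A i σ (Matrix.GeneralLinearGroup.scalar (Fin (N i)) u) := by
  have hc : ∀ g : GL (Fin (N i)) A, Matrix.GeneralLinearGroup.scalar (Fin (N i)) u * g =
      g * Matrix.GeneralLinearGroup.scalar (Fin (N i)) u := by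
    intro g
    apply Units.ext
    rw [Units.val_mul, Units.val_mul, Matrix.GeneralLinearGroup.coe_scalar]
    exact Matrix.scalar_commute _ (Commute.all _) _
  funext k τ
  show pairHom C A i σ _ k τ * j k τ = j k τ * pairHom C A i σ _ k τ
  by_cases h : k = i
  · subst h
    by_cases h' : τ = σ
    · subst h'
      rw [pairHom_same, hc]
    · by_cases h'' : τ = C.c k σ
      · subst h''
        have h3 : C.c k σ ≠ σ := h'
        rw [pairHom_conj _ _ _ _ h3, ← hc, mul_inv_cancel_right, hc]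
      · rw [pairHom_ne _ _ _ _ _ h' h'', one_mul, mul_one]
  · rw [pairHom_ne' _ _ _ _ h, one_mul, mul_one]

/-- **the complex places contribute nothing** -/
theorem cplx_trivial (i : ι) (σ : E i) (hσ : C.c i σ ≠ σ) {j z : Pts E N ℂ} (hj : j * j = 1)
    (hθ : C.theta ℂ j = z * j) (hz : ρ.map ℂ z = -1) (g : GL (Fin (N i)) ℂ) :
    (chiC ρ C Φ frob b (cplxEmb C i σ hσ)).F ℂ g = 1 := by
  obtain ⟨k, -, hk⟩ := (chiC ρ C Φ frob b (cplxEmb C i σ hσ)).det_pow
  have hY := rho_anti ρ C Φ frob ℂ hθ hz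
  have hYY : (ρ.map ℂ j : Matrix (Fin r) (Fin r) ℂ) * (ρ.map ℂ j : Matrix (Fin r) (Fin r) ℂ) = 1 := by
    rw [← Units.val_mul, ← map_mul, hj, map_one, Units.val_one]
  have h1 : ∀ u : ℂˣ, (chiC ρ C Φ frob b (cplxEmb C i σ hσ)).F ℂ (Matrix.GeneralLinearGroup.scalar (Fin (N i)) u) =
      1 := by
    intro u
    have e1 : chi ρ C Φ frob b (cplxEmb C i σ hσ) false ℂ (Matrix.GeneralLinearGroup.scalar (Fin (N i)) u) =
        chi ρ C Φ frob b (cplxEmb C i σ hσ) true ℂ (Matrix.GeneralLinearGroup.scalar (Fin (N i)) u) := by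
      apply Units.ext
      rw [chi_val, chi_val]
      refine dia_comm b (rho_comm ρ C Φ frob ℂ ((cplxEmb C i σ hσ).fix ℂ _)) hYY hY ?_
      rw [← Units.val_mul, ← Units.val_mul, ← map_mul, ← map_mul]
      congr 2
      exact pairHom_central C ℂ i σ u j
    show chi ρ C Φ frob b (cplxEmb C i σ hσ) false ℂ _ * (chi ρ C Φ frob b (cplxEmb C i σ hσ) true ℂ _)⁻¹ = 1
    rw [e1, mul_inv_cancel]
  have h2 := h1 (Units.mk0 2 two_ne_zero)
  rw [hk] at h2
  have h3 : Matrix.GeneralLinearGroup.det (Matrix.GeneralLinearGroup.scalar (Fin (N i))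
      (Units.mk0 (2 : ℂ) two_ne_zero)) = (Units.mk0 (2 : ℂ) two_ne_zero) ^ (N i) := by
    apply Units.ext
    show (Matrix.GeneralLinearGroup.scalar (Fin (N i)) (Units.mk0 (2 : ℂ) two_ne_zero) :
      Matrix (Fin (N i)) (Fin (N i)) ℂ).det = _
    rw [Matrix.GeneralLinearGroup.coe_scalar, Matrix.scalar_apply, Matrix.det_diagonal, Finset.prod_const,
      Finset.card_univ, Fintype.card_fin, Units.val_pow_eq_pow_val]
  rw [h3] at h2
  have h4 := congrArg (fun u : ℂˣ => ‖(u : ℂ)‖) h2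
  simp only [Units.val_zpow_eq_zpow_val, Units.val_pow_eq_pow_val, Units.val_mk0, norm_zpow, norm_pow,
    Complex.norm_ofNat, Units.val_one, norm_one] at h4
  rw [← zpow_natCast, ← _root_.zpow_mul, ← _root_.zpow_zero (2 : ℝ)] at h4
  have h5 := zpow_right_injective₀ (by norm_num : (0 : ℝ) < 2) (by norm_num) h4
  rcases mul_eq_zero.1 h5 with h6 | h6
  · have h7 : N i = 0 := by exact_mod_cast h6
    have h8 : Matrix.GeneralLinearGroup.det g = 1 := by
      apply Units.ext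
      show (g : Matrix (Fin (N i)) (Fin (N i)) ℂ).det = 1
      have : IsEmpty (Fin (N i)) := by rw [h7]; infer_instance
      exact Matrix.det_isEmpty
    rw [hk, h8, _root_.one_zpow]
  · rw [hk, h6, _root_.zpow_zero]

/-! ### the real places -/

section real

variable {i : ι} {v : E i} (hv : C.c i v = v) {n : ℕ}
  (a : Adapt (C.F i v : Matrix (Fin (N i)) (Fin (N i)) ℚ) n)

include hv in
theorem real_sq : (C.F i v : Matrix (Fin (N i)) (Fin (N i)) ℚ) * (C.F i v : Matrix (Fin (N i)) (Fin (N i)) ℚ) = 1 := by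
  have := C.FF i v
  rw [hv] at this
  rw [← Units.val_mul, this, Units.val_one]

include hv in
theorem theta_single (A : Type) [CommRing A] [Algebra ℚ A] (g : GL (Fin (N i)) A) :
    C.theta A (single A i v g) = single A i v (bcG A (C.F i v) * g * bcG A (C.F i v)) := by
  funext k τ
  rw [C.theta_apply]
  by_cases h : k = i
  · subst h
    by_cases h' : τ = v
    · subst h'
      rw [single_same]
      have e1 : single (E := E) A k τ g k (C.c k τ) = g := by rw [hv, single_same]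
      rw [e1, hv]
    · have h'' : C.c k τ ≠ v := C.c_ne (by rwa [hv])
      rw [single_ne _ _ _ _ h', single_ne _ _ _ _ h'', mul_one, C.bFF]
  · rw [single_ne' _ _ _ h, single_ne' _ _ _ h, mul_one, C.bFF]

/-- the twist `ρ(F_v)⁻¹ F_∞` at the real place `v` -/
def twist : GL (Fin r) ℚ := (ρ.at i v).map ℚ (C.F i v) * Φ

theorem bcG_rat {n : ℕ} (g : GL (Fin n) ℚ) : bcG ℚ g = g := by
  apply Units.ext
  ext a b
  show algebraMap ℚ ℚ _ = _
  simp

include hv in
theorem twist_frob : (Φ : Matrix (Fin r) (Fin r) ℚ) = ((ρ.at i v).map ℚ (invol (C.F i v : Matrix _ _ ℚ) (real_sq C hv)) :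
    Matrix (Fin r) (Fin r) ℚ) * (twist (i := i) (v := v) ρ C Φ : Matrix (Fin r) (Fin r) ℚ) := by
  have h1 : invol (C.F i v : Matrix (Fin (N i)) (Fin (N i)) ℚ) (real_sq C hv) = C.F i v := Units.ext rfl
  have h2 : C.F i v * C.F i v = 1 := Units.ext (real_sq C hv)
  rw [h1, twist, ← Units.val_mul, ← mul_assoc, ← map_mul, h2, map_one, one_mul]

include hv frob in
theorem twist_comm (A : Type) [CommRing A] [Algebra ℚ A] (g : GL (Fin (N i)) A) :
    (ρ.at i v).map A g * bcG A (twist (i := i) (v := v) ρ C Φ) = bcG A (twist (i := i) (v := v) ρ C Φ) * (ρ.at i v).map A g := by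
  have h2 : bcG A (C.F i v) * bcG A (C.F i v) = 1 := by
    rw [← bcG_mul, show C.F i v * C.F i v = 1 from Units.ext (real_sq C hv), bcG_one]
  have h1 := frob A (single A i v g)
  rw [theta_single C hv] at h1
  have h3 : bcG A ((ρ.at i v).map ℚ (C.F i v)) = ρ.map A (single A i v (bcG A (C.F i v))) := by
    rw [← rho_bcG]
    rfl
  rw [twist, bcG_mul, h3, ProdRep.at_map]
  rw [mul_assoc, h1, ← mul_assoc, ← mul_assoc, ← map_mul, ← map_mul, ← map_mul, ← map_mul]
  congr 2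
  rw [← mul_assoc, ← mul_assoc, h2, one_mul]

/-- the character at a real place is a power of the determinant, and the exponent is a trace -/
theorem real_char {j z : Pts E N ℂ} (hj : j * j = 1)
    (hθ : C.theta ℂ j = z * j) (hz : ρ.map ℂ z = -1) : ∃ k : ℤ,
    (k : ℚ) * N i = ((Φ : Matrix (Fin r) (Fin r) ℚ) * (ρ.at i v).der (C.F i v : Matrix _ _ ℚ)).trace ∧
    ∀ g : GL (Fin n) ℂ, (chiC ρ C Φ frob b (realEmb C hv a)).F ℂ g = (Matrix.GeneralLinearGroup.det g) ^ k := by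
  obtain ⟨k, hk, hk'⟩ := (chiC ρ C Φ frob b (realEmb C hv a)).det_pow
  refine ⟨k, ?_, hk'⟩
  have h3 : (k : ℚ) * n = -((ρ.at i v).der (a.e false) * (Φ : Matrix (Fin r) (Fin r) ℚ)).trace :=
    Pool.Agent.X274.PR.chi_trace (real_sq C hv) (ρ.at i v) (twist (i := i) (v := v) ρ C Φ) (twist_frob ρ C Φ hv)
      (twist_comm ρ C Φ frob hv) a b (k := k) hk
  have hY := rho_anti ρ C Φ frob ℂ hθ hz
  have hYY : (ρ.map ℂ j : Matrix (Fin r) (Fin r) ℂ) * (ρ.map ℂ j : Matrix (Fin r) (Fin r) ℂ) = 1 := by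
    rw [← Units.val_mul, ← map_mul, hj, map_one, Units.val_one]
  have h4 : ((ρ.at i v).der 1 * (Φ : Matrix (Fin r) (Fin r) ℚ)).trace = 0 :=
    Pool.Agent.X274.PR.trace_scalar (real_sq C hv) (ρ.at i v) (twist (i := i) (v := v) ρ C Φ) (twist_frob ρ C Φ hv)
      (twist_comm ρ C Φ frob hv) b (ρ.map ℂ j : Matrix (Fin r) (Fin r) ℂ) hYY hY fun u => by
        rw [ProdRep.at_map, ← Units.val_mul, ← Units.val_mul, ← map_mul, ← map_mul]
        congr 2
        funext k τ
        show single ℂ i v _ k τ * j k τ = j k τ * single ℂ i v _ k τ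
        by_cases h : k = i
        · subst h
          by_cases h' : τ = v
          · subst h'
            rw [single_same]
            apply Units.ext
            rw [Units.val_mul, Units.val_mul, Matrix.GeneralLinearGroup.coe_scalar]
            exact Matrix.scalar_commute _ (Commute.all _) _
          · rw [single_ne _ _ _ _ h', one_mul, mul_one]
        · rw [single_ne' _ _ _ h, one_mul, mul_one]
  have hN : ((N i : ℕ) : ℚ) = n + n := by
    have e1 := congrArg Matrix.trace a.sum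
    rw [Matrix.trace_add, Matrix.trace_mul_comm, Matrix.trace_mul_comm (a.B false), a.CB, a.CB, Matrix.trace_one,
      Matrix.trace_one, Fintype.card_fin, Fintype.card_fin] at e1
    exact e1.symm
  have hder : (ρ.at i v).der 1 = (ρ.at i v).der (C.F i v : Matrix _ _ ℚ) +
      ((ρ.at i v).der (a.e false) + (ρ.at i v).der (a.e false)) := by
    rw [← AlgRep.der_add, ← AlgRep.der_add]
    congr 1
    have e1 := a.two_e false
    simp only [Bool.false_eq_true, if_false, neg_smul, one_smul] at e1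
    rw [← two_smul ℚ (a.e false), e1]
    abel
  rw [hder, Matrix.add_mul, Matrix.add_mul, Matrix.trace_add, Matrix.trace_add] at h4
  rw [hN, Matrix.trace_mul_comm (Φ : Matrix (Fin r) (Fin r) ℚ)]
  linear_combination 2 * h3 - h4

/-- an involution that anticommutes with `F_v` is conjugate to a rational matrix -/
theorem real_conj (J : GL (Fin (N i)) ℂ) (hJJ : J * J = 1)
    (hJF : (J : Matrix (Fin (N i)) (Fin (N i)) ℂ) * bc ℂ (C.F i v : Matrix (Fin (N i)) (Fin (N i)) ℚ) =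
      -(bc ℂ (C.F i v : Matrix (Fin (N i)) (Fin (N i)) ℚ) * (J : Matrix (Fin (N i)) (Fin (N i)) ℂ))) :
    ∃ g : GL (Fin n) ℂ, (g : Matrix (Fin n) (Fin n) ℂ) =
      bc ℂ (a.C false) * (J : Matrix (Fin (N i)) (Fin (N i)) ℂ) * bc ℂ (a.B true) ∧
      J = a.emb ℂ g * bcG ℂ a.w * (a.emb ℂ g)⁻¹ := by
  have hJJ' : (J : Matrix (Fin (N i)) (Fin (N i)) ℂ) * (J : Matrix (Fin (N i)) (Fin (N i)) ℂ) = 1 := by
    rw [← Units.val_mul, hJJ, Units.val_one]
  have g1 : (bc ℂ (a.C true) * (J : Matrix (Fin (N i)) (Fin (N i)) ℂ) * bc ℂ (a.B false)) *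
      (bc ℂ (a.C false) * (J : Matrix (Fin (N i)) (Fin (N i)) ℂ) * bc ℂ (a.B true)) = 1 := by
    rw [Matrix.mul_assoc (bc ℂ (a.C true) * _),
      show bc ℂ (a.B false) * (bc ℂ (a.C false) * (J : Matrix (Fin (N i)) (Fin (N i)) ℂ) * bc ℂ (a.B true)) =
        (J : Matrix (Fin (N i)) (Fin (N i)) ℂ) * bc ℂ (a.B true) from a.JB hJF true,
      ← Matrix.mul_assoc, Matrix.mul_assoc (bc ℂ (a.C true)), hJJ', Matrix.mul_one, a.bcCB]
  have g2 : (bc ℂ (a.C false) * (J : Matrix (Fin (N i)) (Fin (N i)) ℂ) * bc ℂ (a.B true)) *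
      (bc ℂ (a.C true) * (J : Matrix (Fin (N i)) (Fin (N i)) ℂ) * bc ℂ (a.B false)) = 1 := by
    rw [Matrix.mul_assoc (bc ℂ (a.C false) * _),
      show bc ℂ (a.B true) * (bc ℂ (a.C true) * (J : Matrix (Fin (N i)) (Fin (N i)) ℂ) * bc ℂ (a.B false)) =
        (J : Matrix (Fin (N i)) (Fin (N i)) ℂ) * bc ℂ (a.B false) from a.JB hJF false,
      ← Matrix.mul_assoc, Matrix.mul_assoc (bc ℂ (a.C false)), hJJ', Matrix.mul_one, a.bcCB]
  obtain ⟨g, hg, hg'⟩ : ∃ g : GL (Fin n) ℂ, (g : Matrix (Fin n) (Fin n) ℂ) =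
      bc ℂ (a.C false) * (J : Matrix (Fin (N i)) (Fin (N i)) ℂ) * bc ℂ (a.B true) ∧
      ((g⁻¹ : GL (Fin n) ℂ) : Matrix (Fin n) (Fin n) ℂ) =
      bc ℂ (a.C true) * (J : Matrix (Fin (N i)) (Fin (N i)) ℂ) * bc ℂ (a.B false) := ⟨⟨_, _, g2, g1⟩, rfl, rfl⟩
  refine ⟨g, hg, ?_⟩
  have hJw : J * a.emb ℂ g = a.emb ℂ g * bcG ℂ a.w := by
    apply Units.ext
    rw [Units.val_mul, Units.val_mul, a.emb_val, bcG_val]
    have e1 : bc ℂ (a.w : Matrix (Fin (N i)) (Fin (N i)) ℚ) = bc ℂ (a.B false) * bc ℂ (a.C true) +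
        bc ℂ (a.B true) * bc ℂ (a.C false) := by
      show bc ℂ (a.B false * a.C true + a.B true * a.C false) = _
      rw [bc_add, bc_mul, bc_mul]
    rw [e1]
    have j1 : (J : Matrix (Fin (N i)) (Fin (N i)) ℂ) * bc ℂ (a.B true) = bc ℂ (a.B false) * (g : Matrix (Fin n) (Fin n) ℂ) := by
      rw [hg]
      exact (a.JB hJF true).symm
    have j2 : (J : Matrix (Fin (N i)) (Fin (N i)) ℂ) * bc ℂ (a.B false) =
        bc ℂ (a.B true) * ((g⁻¹ : GL (Fin n) ℂ) : Matrix (Fin n) (Fin n) ℂ) := by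
      rw [hg']
      exact (a.JB hJF false).symm
    have h1 := a.bcCB (A := ℂ) true
    have h2 := a.bcCB (A := ℂ) false
    have h3 : bc ℂ (a.C true) * bc ℂ (a.B false) = 0 := a.bcCB' true
    have h4 : bc ℂ (a.C false) * bc ℂ (a.B true) = 0 := a.bcCB' false
    rw [Matrix.mul_add, ← Matrix.mul_assoc, j1, ← Matrix.mul_assoc, ← Matrix.mul_assoc, j2,
      Matrix.mul_assoc (bc ℂ (a.B true)) _ (g : Matrix (Fin n) (Fin n) ℂ), Units.inv_mul, Matrix.mul_one]
    rw [Matrix.add_mul, Matrix.mul_add, Matrix.mul_add]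
    rw [Matrix.mul_assoc (bc ℂ (a.B true)) _ (bc ℂ (a.B false) * _), ← Matrix.mul_assoc (bc ℂ (a.C true)), h3,
      Matrix.zero_mul, Matrix.mul_zero, zero_add]
    rw [Matrix.mul_assoc (bc ℂ (a.B true)) _ (bc ℂ (a.B true) * _), ← Matrix.mul_assoc (bc ℂ (a.C true)), h1,
      Matrix.one_mul]
    rw [Matrix.mul_assoc (bc ℂ (a.B false) * _) _ (bc ℂ (a.B false) * _), ← Matrix.mul_assoc (bc ℂ (a.C false)), h2,
      Matrix.one_mul]
    rw [Matrix.mul_assoc (bc ℂ (a.B false) * _) _ (bc ℂ (a.B true) * _), ← Matrix.mul_assoc (bc ℂ (a.C false)), h4,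
      Matrix.zero_mul, Matrix.mul_zero, add_zero, add_comm]
  rw [← hJw, mul_inv_cancel_right]

end real

end

end Pool.Agent.H97.NF
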