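import Pool.Agent.H97.NF.Mot

set_option autoImplicit false
set_option linter.unusedSectionVars false

/-!
# The periods at the real places
-/

namespace Pool.Agent.H97.NF

open Matrix Pool.Agent.X274.PR Pool.Agent.X33.DP

section field

variable {K : Type} [Field K] [CharZero K]

theorem exists_coords' {N n l : ℕ} {B : Matrix (Fin N) (Fin n) K} {X : Matrix (Fin N) (Fin l) K}
    (h : ∀ x, X.mulVec x ∈ LinearMap.range B.mulVecLin) : ∃ C : Matrix (Fin n) (Fin l) K, B * C = X := by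
  choose c hc using fun j => h (Pi.single j 1)
  refine ⟨Matrix.of fun i j => c j i, ?_⟩
  ext i j
  have h1 := congrFun (hc j) i
  have h2 : X.mulVec (Pi.single j 1) i = X i j := by simp
  rw [← h2, ← h1]
  rfl

theorem inj_cancel' {N n l : ℕ} {B : Matrix (Fin N) (Fin n) K} (hB : Function.Injective B.mulVec)
    {X Y : Matrix (Fin n) (Fin l) K} (h : B * X = B * Y) : X = Y := by
  ext i j
  have h1 : B.mulVec (X.mulVec (Pi.single j 1)) = B.mulVec (Y.mulVec (Pi.single j 1)) := by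
    rw [Matrix.mulVec_mulVec, Matrix.mulVec_mulVec, h]
  have h2 := congrFun (hB h1) i
  simpa using h2

theorem mem_ker_iff' {N : ℕ} (F : Matrix (Fin N) (Fin N) K) (s : ℤˣ) (x : Fin N → K) :
    x ∈ LinearMap.ker (F - ((s : ℤ) : K) • (1 : Matrix (Fin N) (Fin N) K)).mulVecLin ↔
      F.mulVec x = ((s : ℤ) : K) • x := by
  rw [LinearMap.mem_ker, Matrix.mulVecLin_apply, Matrix.sub_mulVec, Matrix.smul_mulVec, Matrix.one_mulVec,
    sub_eq_zero]

theorem ss (s : ℤˣ) : ((s : ℤ) : K) * ((s : ℤ) : K) = 1 := by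
  rcases Int.units_eq_one_or s with rfl | rfl <;> simp

/-- coordinates on an eigenspace of an involution -/
theorem proj_of {N n : ℕ} {F : Matrix (Fin N) (Fin N) K} (hF : F * F = 1) (s : ℤˣ) {B : Matrix (Fin N) (Fin n) K}
    (hB : Function.Injective B.mulVec)
    (hB' : LinearMap.range B.mulVecLin =
      LinearMap.ker (F - ((s : ℤ) : K) • (1 : Matrix (Fin N) (Fin N) K)).mulVecLin) :
    F * B = ((s : ℤ) : K) • B ∧
      ∃ C : Matrix (Fin n) (Fin N) K, C * B = 1 ∧ B * C = (1 / 2 : K) • (1 + ((s : ℤ) : K) • F) := by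
  have h1 : ∀ x ∈ LinearMap.range B.mulVecLin, F.mulVec x = ((s : ℤ) : K) • x := fun x hx => by
    rwa [hB', mem_ker_iff'] at hx
  have hFB : F * B = ((s : ℤ) : K) • B := by
    ext i j
    have h1 := congrFun (h1 (B.mulVec (Pi.single j 1)) ⟨_, rfl⟩) i
    rw [Matrix.mulVec_mulVec] at h1
    simpa using h1
  refine ⟨hFB, ?_⟩
  have hX : F * ((1 / 2 : K) • (1 + ((s : ℤ) : K) • F)) =
      ((s : ℤ) : K) • ((1 / 2 : K) • (1 + ((s : ℤ) : K) • F)) := by
    rw [Matrix.mul_smul, Matrix.mul_add, Matrix.mul_one, Matrix.mul_smul, hF, smul_comm ((s : ℤ) : K),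
      smul_add ((s : ℤ) : K), smul_smul ((s : ℤ) : K) ((s : ℤ) : K) F, ss, one_smul, add_comm]
  obtain ⟨C, hC⟩ := exists_coords' (B := B) (X := (1 / 2 : K) • (1 + ((s : ℤ) : K) • F)) fun x => by
    rw [hB', mem_ker_iff', Matrix.mulVec_mulVec, hX, Matrix.smul_mulVec]
  refine ⟨C, inj_cancel' hB ?_, hC⟩
  rw [← Matrix.mul_assoc, hC, Matrix.smul_mul, Matrix.add_mul, Matrix.one_mul, Matrix.smul_mul, hFB, Matrix.mul_one,
    smul_smul ((s : ℤ) : K), ss, one_smul, ← two_smul K B, smul_smul]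
  norm_num

theorem proj_trace {N n : ℕ} {F : Matrix (Fin N) (Fin N) K} (hF : F * F = 1) (hT : F.trace = 0) (s : ℤˣ)
    {B : Matrix (Fin N) (Fin n) K} (hB : Function.Injective B.mulVec)
    (hB' : LinearMap.range B.mulVecLin =
      LinearMap.ker (F - ((s : ℤ) : K) • (1 : Matrix (Fin N) (Fin N) K)).mulVecLin) : N = 2 * n := by
  obtain ⟨-, C, h1, h2⟩ := proj_of hF s hB hB'
  have h3 := congrArg Matrix.trace h2
  rw [Matrix.trace_mul_comm, h1, Matrix.trace_one, Matrix.trace_smul, Matrix.trace_add, Matrix.trace_smul, hT,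
    Matrix.trace_one, smul_zero, add_zero, Fintype.card_fin, Fintype.card_fin, smul_eq_mul] at h3
  have h4 : (N : K) = ((2 * n : ℕ) : K) := by
    push_cast
    rw [h3]
    ring
  exact_mod_cast h4

end field

theorem trace_zero {N : ℕ} {F : Matrix (Fin N) (Fin N) ℚ} {J : Matrix (Fin N) (Fin N) ℂ} (hJ : J * J = 1)
    (h : J * bc ℂ F = -(bc ℂ F * J)) : F.trace = 0 := by
  have h1 : (bc ℂ F).trace = -(bc ℂ F).trace := by
    calc (bc ℂ F).trace = (J * (J * bc ℂ F)).trace := by rw [← Matrix.mul_assoc, hJ, Matrix.one_mul]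
      _ = -(J * (bc ℂ F * J)).trace := by rw [h, Matrix.mul_neg, Matrix.trace_neg]
      _ = -(bc ℂ F).trace := by
        rw [Matrix.trace_mul_comm, Matrix.mul_assoc, hJ, Matrix.mul_one]
  have h2 : (bc ℂ F).trace = ((F.trace : ℚ) : ℂ) := by
    simp [Matrix.trace]
  have h3 : (bc ℂ F).trace = 0 := self_eq_neg.1 h1
  rw [h2] at h3
  exact_mod_cast h3

namespace NFMot

variable {K : Type} [Field K] [CharZero K] (M : NFMot K) {v : K →+* ℂ} (hv : bar v = v)

theorem comp_rat (v : K →+* ℂ) : v.comp (algebraMap ℚ K) = algebraMap ℚ ℂ := Subsingleton.elim _ _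

theorem map_rat (v : K →+* ℂ) {m n : Type} (X : Matrix m n ℚ) : (X.map (algebraMap ℚ K)).map v = bc ℂ X := by
  ext i j
  show v (algebraMap ℚ K (X i j)) = algebraMap ℚ ℂ (X i j)
  rw [← comp_rat v]
  rfl

include hv in
theorem F_sq_real : M.F v * M.F v = 1 := by
  have := M.F_bar v
  rwa [hv] at this

/-- the motive at a real place as a motive with coefficients extended to `K` -/
noncomputable def toP : @PMot K ℂ _ _ v.toAlgebra :=
  letI := v.toAlgebra
  { N := M.N
    w := M.w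
    F := (M.F v).map (algebraMap ℚ K)
    F_sq := by
      rw [← Matrix.map_mul, M.F_sq_real hv]
      exact Matrix.map_one _ (map_zero _) (map_one _)
    H := M.H v
    hodge := M.hodge v
    swap := fun p x hx => by
      have h1 := M.swap v p x hx
      rw [hv] at h1
      have h2 : ((M.F v).map (algebraMap ℚ K)).map (algebraMap K ℂ) = (M.F v).map (algebraMap ℚ ℂ) :=
        map_rat v (M.F v)
      rw [h2]
      exact h1
    fil := M.fil
    P := M.P v
    P_unit := M.P_unit v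
    comp := M.comp v }

include hv in
/-- the sign operator at a real place -/
theorem exists_sign_real (h0 : M.NoMiddle v) : ∃ J : GL (Fin M.N) ℂ,
    (∀ p, ∀ x ∈ M.H v p, (J : Matrix (Fin M.N) (Fin M.N) ℂ).mulVec x =
      (((2 * p - M.w).sign : ℤ) : ℂ) • x) ∧ J * J = 1 ∧
    (J : Matrix (Fin M.N) (Fin M.N) ℂ) * bc ℂ (M.F v) = -(bc ℂ (M.F v) * (J : Matrix (Fin M.N) (Fin M.N) ℂ)) := by
  obtain ⟨J, h1, h2⟩ := exists_sign' (M.hodge v) h0
  refine ⟨J, h1, h2, ?_⟩
  rw [M.F_sign (J' := (J : Matrix (Fin M.N) (Fin M.N) ℂ)) h1 (by rw [hv]; exact h1), neg_neg]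

include hv in
theorem trace_F (h0 : M.NoMiddle v) : (M.F v).trace = 0 := by
  obtain ⟨J, -, h2, h3⟩ := M.exists_sign_real hv h0
  exact trace_zero (J := (J : Matrix (Fin M.N) (Fin M.N) ℂ)) (by rw [← Units.val_mul, h2, Units.val_one]) h3

theorem trace_map {n : ℕ} (X : Matrix (Fin n) (Fin n) ℚ) :
    (X.map (algebraMap ℚ K)).trace = algebraMap ℚ K X.trace := by
  simp [Matrix.trace]

theorem isPeriod_toP {n : ℕ} (s : ℤˣ) {B : Matrix (Fin M.N) (Fin n) ℚ} {Q : Matrix (Fin n) (Fin M.N) K}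
    (hB : Function.Injective B.mulVec) (hB' : LinearMap.range B.mulVecLin = M.eig v s)
    (hQ : Function.Surjective Q.mulVec) (hQ' : LinearMap.ker Q.mulVecLin = M.fil ((M.w + 1) / 2)) :
    @PMot.IsPeriod K ℂ _ _ v.toAlgebra (M.toP hv) s (Q.map v * M.P v * B.map (algebraMap ℚ ℂ)).det := by
  let _ := v.toAlgebra
  obtain ⟨h1, C, h2, h3⟩ := proj_of (M.F_sq_real hv) s hB hB'
  set φ := algebraMap ℚ K with hφ
  have e1 : C.map φ * B.map φ = 1 := by
    rw [← Matrix.map_mul, h2]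
    exact Matrix.map_one _ (map_zero _) (map_one _)
  have e2 : B.map φ * C.map φ = (1 / 2 : K) • (1 + ((s : ℤ) : K) • (M.F v).map φ) := by
    rw [← Matrix.map_mul, h3]
    ext i j
    by_cases hij : i = j
    · subst hij
      simp
      ring
    · simp [hij]
  have e3 : (M.F v).map φ * B.map φ = ((s : ℤ) : K) • B.map φ := by
    rw [← Matrix.map_mul, h1]
    ext i j
    simp
  have h5 : ∀ z : Fin n → K, (C.map φ).mulVec ((B.map φ).mulVec z) = z := fun z => by
    rw [Matrix.mulVec_mulVec, e1, Matrix.one_mulVec]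
  have h6 : ∀ x : Fin M.N → K, ((M.F v).map φ).mulVec x = ((s : ℤ) : K) • x →
      (B.map φ).mulVec ((C.map φ).mulVec x) = x := by
    intro x h4
    rw [Matrix.mulVec_mulVec, e2, Matrix.smul_mulVec, Matrix.add_mulVec, Matrix.one_mulVec,
        Matrix.smul_mulVec, h4, smul_smul ((s : ℤ) : K), ss, one_smul, ← two_smul K x, smul_smul]
    norm_num
  refine ⟨n, B.map φ, Q, ?_, ?_, hQ, hQ', ?_⟩
  · intro x y hxy
    exact (h5 x).symm.trans ((congrArg (C.map φ).mulVec hxy).trans (h5 y))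
  · ext x
    show x ∈ LinearMap.range (B.map φ).mulVecLin ↔ x ∈ LinearMap.ker _
    constructor
    · rintro ⟨y, rfl⟩
      refine (mem_ker_iff' ((M.F v).map φ) s _).2 ?_
      rw [Matrix.mulVecLin_apply, Matrix.mulVec_mulVec, e3, Matrix.smul_mulVec]
    · intro hx
      have h4 := (mem_ker_iff' ((M.F v).map φ) s x).1 hx
      exact ⟨(C.map φ).mulVec x, h6 x h4⟩
  · show _ = (Q.map v * M.P v * (B.map φ).map v).det
    rw [map_rat]

include hv in
theorem exists_periods (h0 : M.NoMiddle v) : ∃ c c', M.IsPeriods v c c' := by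
  let _ := v.toAlgebra
  have hN : ∀ p, 2 * p = (M.toP hv).w → (M.toP hv).H p = ⊥ := h0
  obtain ⟨c0, n, B0, Q, hB0, hB0', hQ, hQ', -⟩ := (M.toP hv).exists_isPeriod hN 1
  have hT := M.trace_F hv h0
  have h1 : M.N = 2 * n := by
    refine proj_trace (F := (M.F v).map (algebraMap ℚ K)) ?_ ?_ 1 hB0 hB0'
    · rw [← Matrix.map_mul, M.F_sq_real hv]
      exact Matrix.map_one _ (map_zero _) (map_one _)
    · rw [trace_map, hT, map_zero]
  have h2 : ∀ s, Module.finrank ℚ (M.eig v s) = n := by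
    intro s
    obtain ⟨B, hB, hB'⟩ := exists_basis_matrix (M.eig v s) rfl
    have := proj_trace (M.F_sq_real hv) hT s hB hB'
    omega
  obtain ⟨B, hB, hB'⟩ := exists_basis_matrix (M.eig v 1) (h2 1)
  obtain ⟨B', hB1, hB1'⟩ := exists_basis_matrix (M.eig v (-1)) (h2 (-1))
  exact ⟨_, _, n, B, B', Q, hB, hB', hB1, hB1', hQ, hQ', rfl, rfl⟩

include hv in
theorem periods_ne (h0 : M.NoMiddle v) {c c' : ℂ} (h : M.IsPeriods v c c') : c ≠ 0 ∧ c' ≠ 0 := by
  let _ := v.toAlgebra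
  have hN : ∀ p, 2 * p = (M.toP hv).w → (M.toP hv).H p = ⊥ := h0
  obtain ⟨n, B, B', Q, hB, hB', hB1, hB1', hQ, hQ', rfl, rfl⟩ := h
  exact ⟨(PMot.isUnit_isPeriod hN (M.isPeriod_toP hv 1 hB hB' hQ hQ')).ne_zero,
    (PMot.isUnit_isPeriod hN (M.isPeriod_toP hv (-1) hB1 hB1' hQ hQ')).ne_zero⟩

/-- the ratio of the periods as a determinant -/
theorem ratio_real (h0 : M.NoMiddle v) {c c' : ℂ} (h : M.IsPeriods v c c') (hF : M.F v * M.F v = 1) :
    ∃ (n : ℕ) (a : Adapt (M.F v) n), ∀ J : Matrix (Fin M.N) (Fin M.N) ℂ,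
      (∀ p, ∀ x ∈ M.H v p, J.mulVec x = (((2 * p - M.w).sign : ℤ) : ℂ) • x) →
      J * bc ℂ (M.F v) = -(bc ℂ (M.F v) * J) →
      ∃ e : ℚ, e ≠ 0 ∧ c = (e : ℂ) * (c' * swp a J) := by
  obtain ⟨n, B, B', Q, hB, hB', hB1, hB1', hQ, hQ', rfl, rfl⟩ := h
  obtain ⟨a, ha, ha'⟩ := adapt_of hF hB hB' hB1 hB1'
  refine ⟨n, a, fun J hJ hJF => ⟨(-1) ^ n, pow_ne_zero _ (by norm_num), ?_⟩⟩
  have h1 := M.quot_sign h0 hJ hQ'
  have h2 : bc ℂ (a.B false) * (bc ℂ (a.C false) * J * bc ℂ (a.B true)) = J * bc ℂ (a.B true) := a.JB hJF true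
  have h3 : Q.map v * M.P v * bc ℂ (a.B true) =
      -(Q.map v * M.P v * bc ℂ (a.B false) * (bc ℂ (a.C false) * J * bc ℂ (a.B true))) := by
    rw [Matrix.mul_assoc (Q.map v * M.P v), h2, ← Matrix.mul_assoc, h1, Matrix.neg_mul, neg_neg]
  rw [← ha, ← ha']
  show (Q.map v * M.P v * bc ℂ (a.B true)).det = _ * ((Q.map v * M.P v * bc ℂ (a.B false)).det * _)
  rw [h3, det_neg, Fintype.card_fin, det_mul]
  push_cast
  rfl

end NFMot

/-- change of the adapted bases -/
theorem swp_change {N n n' : ℕ} {F : Matrix (Fin N) (Fin N) ℚ} (a : Adapt F n) (a' : Adapt F n')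
    {J : Matrix (Fin N) (Fin N) ℂ} (hJ : J * bc ℂ F = -(bc ℂ F * J)) :
    ∃ e : ℚ, e ≠ 0 ∧ swp a J = (e : ℂ) * swp a' J := by
  have hN : ∀ {n : ℕ} (a : Adapt F n), (N : ℚ) = n + n := by
    intro n a
    have e1 := congrArg Matrix.trace a.sum
    rw [Matrix.trace_add, Matrix.trace_mul_comm, Matrix.trace_mul_comm (a.B false), a.CB, a.CB, Matrix.trace_one,
      Matrix.trace_one, Fintype.card_fin, Fintype.card_fin] at e1
    exact e1.symm
  have hnn : n = n' := by
    have h1 := hN a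
    have h2 := hN a'
    have h3 : (n : ℚ) = n' := by linarith
    exact_mod_cast h3
  subst hnn
  have key : ∀ (a a' : Adapt F n) (b : Bool), (a.C b * a'.B b) * (a'.C b * a.B b) = 1 := by
    intro a a' b
    have h1 : a'.e b * a.B b = a.B b := by
      have h2 := a'.two_e b
      have h3 := a.two_e b
      have h4 : a'.e b = a.e b := by
        have : (2 : ℚ) • a'.e b = (2 : ℚ) • a.e b := by rw [h2, h3]
        exact smul_right_injective _ (two_ne_zero) this
      rw [h4]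
      show a.B b * a.C b * a.B b = _
      rw [Matrix.mul_assoc, a.CB, Matrix.mul_one]
    rw [Matrix.mul_assoc, ← Matrix.mul_assoc (a'.B b)]
    show a.C b * (a'.e b * a.B b) = 1
    rw [h1, a.CB]
  have hdet : ∀ (a a' : Adapt F n) (b : Bool), (a.C b * a'.B b).det ≠ 0 := by
    intro a a' b h0
    have := congrArg Matrix.det (key a a' b)
    rw [det_mul, h0, zero_mul, det_one] at this
    exact zero_ne_one this
  refine ⟨(a.C false * a'.B false).det * (a'.C true * a.B true).det, mul_ne_zero (hdet _ _ _) (hdet _ _ _), ?_⟩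
  have h5 : bc ℂ (a.C false) * J * bc ℂ (a.B true) = bc ℂ (a.C false * a'.B false) *
      (bc ℂ (a'.C false) * J * bc ℂ (a'.B true)) * bc ℂ (a'.C true * a.B true) := by
    have e1 : bc ℂ (a'.B false) * (bc ℂ (a'.C false) * J * bc ℂ (a'.B true)) = J * bc ℂ (a'.B true) := a'.JB hJ true
    have e2 : bc ℂ (a'.B true) * bc ℂ (a'.C true * a.B true) = bc ℂ (a.B true) := by
      rw [← bc_mul, ← Matrix.mul_assoc]
      congr 1
      have h2 := a'.two_e true
      have h3 := a.two_e true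
      have h4 : a'.e true = a.e true := by
        have : (2 : ℚ) • a'.e true = (2 : ℚ) • a.e true := by rw [h2, h3]
        exact smul_right_injective _ (two_ne_zero) this
      show a'.e true * a.B true = _
      rw [h4]
      show a.B true * a.C true * a.B true = _
      rw [Matrix.mul_assoc, a.CB, Matrix.mul_one]
    have e3 : bc ℂ (a.C false * a'.B false) = bc ℂ (a.C false) * bc ℂ (a'.B false) := bc_mul _ _
    have e4 : bc ℂ (a.C false) * (J * bc ℂ (a'.B true)) * bc ℂ (a'.C true * a.B true) =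
        bc ℂ (a.C false) * J * (bc ℂ (a'.B true) * bc ℂ (a'.C true * a.B true)) := by
      simp only [Matrix.mul_assoc]
    rw [e3, Matrix.mul_assoc (bc ℂ (a.C false)) (bc ℂ (a'.B false)), e1, e4, e2]
  have hcast : ∀ X : Matrix (Fin n) (Fin n) ℚ, (bc ℂ X).det = (X.det : ℂ) := by
    intro X
    have : (bc ℂ X).det = algebraMap ℚ ℂ X.det := by
      rw [RingHom.map_det]
      rfl
    rw [this]
    rfl
  unfold swp
  rw [h5, det_mul, det_mul, hcast, hcast]
  push_cast
  ring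

end Pool.Agent.H97.NF
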