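import Pool.Agent.H97.NF.Real

set_option autoImplicit false
set_option linter.unusedSectionVars false

/-!
# The exponents vanish if there is another odd set of places
-/

namespace Pool.Agent.H97.NF

open Matrix Pool.Agent.X274.PR

/-- `ℚ[ε] → ℂ[ε]` -/
noncomputable def dualMap : DualNumber ℚ →ₐ[ℚ] DualNumber ℂ :=
  DualNumber.lift ⟨(Algebra.ofId ℚ (DualNumber ℂ), DualNumber.eps), DualNumber.eps_mul_eps, fun _ => Commute.all _ _⟩

theorem dualMap_eps : dualMap DualNumber.eps = DualNumber.eps := by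
  rw [dualMap, DualNumber.lift_apply_eps]

/-- `ℂ → ℂ[ε]` -/
noncomputable def dualInl : ℂ →ₐ[ℚ] DualNumber ℂ := (TrivSqZeroExt.inlAlgHom ℂ ℂ ℂ).restrictScalars ℚ

theorem dualInl_bc {m n : Type} (X : Matrix m n ℚ) : (bc ℂ X).map dualInl = bc (DualNumber ℂ) X :=
  Adapt.map_bc dualInl X

theorem dual_inj {m n : Type} {X Y : Matrix m n ℂ}
    (h : (DualNumber.eps : DualNumber ℂ) • X.map dualInl = (DualNumber.eps : DualNumber ℂ) • Y.map dualInl) :
    X = Y := by
  ext i j
  have h1 := congrArg (fun Z : Matrix m n (DualNumber ℂ) => TrivSqZeroExt.snd (Z i j)) h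
  simpa [dualInl] using h1

section

variable {ι : Type} [DecidableEq ι] {E : ι → Type} [∀ i, DecidableEq (E i)] {N : ι → ℕ} {r : ℕ}
  (ρ : ProdRep E N r)

theorem der_comm {i : ι} {v : E i} {j : Pts E N ℂ} (hj : j i v = 1) (X : Matrix (Fin (N i)) (Fin (N i)) ℚ) :
    (ρ.map ℂ j : Matrix (Fin r) (Fin r) ℂ) * bc ℂ ((ρ.at i v).der X) =
      bc ℂ ((ρ.at i v).der X) * (ρ.map ℂ j : Matrix (Fin r) (Fin r) ℂ) := by
  have h1 : baseChange (dualMap : DualNumber ℚ →+* DualNumber ℂ) (single (E := E) (DualNumber ℚ) i v (tangent X)) *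
      baseChange (dualInl : ℂ →+* DualNumber ℂ) j =
      baseChange (dualInl : ℂ →+* DualNumber ℂ) j *
        baseChange (dualMap : DualNumber ℚ →+* DualNumber ℂ) (single (E := E) (DualNumber ℚ) i v (tangent X)) := by
    rw [single_nat]
    funext k τ
    show single (E := E) (DualNumber ℂ) i v _ k τ * baseChange (dualInl : ℂ →+* DualNumber ℂ) j k τ =
      baseChange (dualInl : ℂ →+* DualNumber ℂ) j k τ * single (E := E) (DualNumber ℂ) i v _ k τ
    by_cases h : k = i
    · subst h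
      by_cases h' : τ = v
      · subst h'
        rw [baseChange_apply, hj, map_one, one_mul, mul_one]
      · rw [single_ne _ _ _ _ h', one_mul, mul_one]
    · rw [single_ne' _ _ _ h, one_mul, mul_one]
  have h2 := congrArg (fun g => (ρ.map (DualNumber ℂ) g : Matrix (Fin r) (Fin r) (DualNumber ℂ))) h1
  simp only [map_mul, Units.val_mul] at h2
  rw [ρ.nat, ρ.nat] at h2
  have h3 : ((Matrix.GeneralLinearGroup.map (dualMap : DualNumber ℚ →+* DualNumber ℂ)
      (ρ.map (DualNumber ℚ) (single (DualNumber ℚ) i v (tangent X))) : GL (Fin r) (DualNumber ℂ)) :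
      Matrix (Fin r) (Fin r) (DualNumber ℂ)) =
      1 + (DualNumber.eps : DualNumber ℂ) • (bc ℂ ((ρ.at i v).der X)).map dualInl := by
    have h4 := (ρ.at i v).map_tangent X
    have h5 : ((Matrix.GeneralLinearGroup.map (dualMap : DualNumber ℚ →+* DualNumber ℂ)
      (ρ.map (DualNumber ℚ) (single (DualNumber ℚ) i v (tangent X))) : GL (Fin r) (DualNumber ℂ)) :
      Matrix (Fin r) (Fin r) (DualNumber ℂ)) =
      (((ρ.at i v).map (DualNumber ℚ) (tangent X) : GL (Fin r) (DualNumber ℚ)) :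
        Matrix (Fin r) (Fin r) (DualNumber ℚ)).map dualMap := rfl
    rw [h5, h4, dualInl_bc, Matrix.map_add _ (map_add _), Matrix.map_one _ (map_zero _) (map_one _)]
    congr 1
    refine Matrix.ext fun a b => ?_
    rw [Matrix.map_apply, Matrix.smul_apply, Matrix.smul_apply, smul_eq_mul, smul_eq_mul, map_mul, dualMap_eps]
    refine congrArg (fun z => (DualNumber.eps : DualNumber ℂ) * z) ?_
    show dualMap (algebraMap ℚ (DualNumber ℚ) _) = algebraMap ℚ (DualNumber ℂ) _
    rw [AlgHom.commutes]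
  rw [h3] at h2
  set R : Matrix (Fin r) (Fin r) (DualNumber ℂ) := ((Matrix.GeneralLinearGroup.map (dualInl : ℂ →+* DualNumber ℂ)
    (ρ.map ℂ j) : GL (Fin r) (DualNumber ℂ)) : Matrix (Fin r) (Fin r) (DualNumber ℂ)) with hR
  have hR' : R = (ρ.map ℂ j : Matrix (Fin r) (Fin r) ℂ).map dualInl := rfl
  rw [Matrix.add_mul, Matrix.mul_add, Matrix.one_mul, Matrix.mul_one, Matrix.smul_mul, Matrix.mul_smul] at h2
  have h6 := add_left_cancel h2
  rw [hR', ← Matrix.map_mul, ← Matrix.map_mul] at h6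
  exact (dual_inj h6).symm

variable (C : Conj E N) (Φ : GL (Fin r) ℚ)
  (frob : ∀ (A : Type) [CommRing A] [Algebra ℚ A] (g : Pts E N A),
    bcG A Φ * ρ.map A g = ρ.map A (C.theta A g) * bcG A Φ)

include frob in
/-- if there is an odd set of places without `v`, then the trace vanishes -/
theorem trace_vanish {S : ∀ i, Set (E i)} (odd : ρ.map ℚ (sgn S ℚ) = -1) {j : Pts E N ℂ} (hj : IsJ C S j)
    {i : ι} {v : E i} (hv : v ∉ S i) (X : Matrix (Fin (N i)) (Fin (N i)) ℚ) :
    ((Φ : Matrix (Fin r) (Fin r) ℚ) * (ρ.at i v).der X).trace = 0 := by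
  set R : Matrix (Fin r) (Fin r) ℂ := (ρ.map ℂ j : Matrix (Fin r) (Fin r) ℂ) with hR
  have hRR : R * R = 1 := by
    rw [hR, ← Units.val_mul, ← map_mul, hj.sq, map_one, Units.val_one]
  have h1 : R * bc ℂ (Φ : Matrix (Fin r) (Fin r) ℚ) = -(bc ℂ (Φ : Matrix (Fin r) (Fin r) ℚ) * R) :=
    rho_anti ρ C Φ frob ℂ hj.theta (odd_base ρ odd ℂ)
  have h2 : R * bc ℂ ((ρ.at i v).der X) = bc ℂ ((ρ.at i v).der X) * R := der_comm ρ (hj.off i v hv) X
  refine trace_zero (J := R) hRR ?_
  rw [bc_mul, ← Matrix.mul_assoc, h1, Matrix.neg_mul, Matrix.mul_assoc, h2, Matrix.mul_assoc]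

end

end Pool.Agent.H97.NF
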